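import Pool.Agent.T2H49.PC.Two

/-!
# Asymptotics
-/

namespace Pool.Agent.T2H49.PC

open Finset Filter Asymptotics

/-- Half of the smaller clique size. -/
noncomputable def hh (n : ℕ) : ℕ := 3 * Nat.clog 2 n

theorem hh_pow {n : ℕ} : (1 / 2 : ℝ) ^ hh n * (n : ℝ) ^ 3 ≤ 1 := by
  have h1 : n ≤ 2 ^ Nat.clog 2 n := Nat.le_pow_clog (by norm_num) n
  have h2 : (n : ℝ) ≤ 2 ^ Nat.clog 2 n := by exact_mod_cast h1
  rw [hh, mul_comm 3, pow_mul, ← mul_pow, div_pow, one_pow, div_mul_eq_mul_div, one_mul]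
  refine pow_le_one₀ (by positivity) ?_
  rw [div_le_one (by positivity)]
  exact h2

theorem hh_le {n : ℕ} (hn : 2 ≤ n) : (hh n : ℝ) ≤ 9 * Real.log n := by
  have h1 : 2 ^ (Nat.clog 2 n - 1) < n := Nat.pow_pred_clog_lt_self (by norm_num) (by omega)
  have h2 : (2 : ℝ) ^ (Nat.clog 2 n - 1) < n := by exact_mod_cast h1
  have h3 : ((Nat.clog 2 n - 1 : ℕ) : ℝ) * Real.log 2 ≤ Real.log n := by
    rw [← Real.log_pow]
    exact Real.log_le_log (by positivity) h2.le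
  have h4 : 1 ≤ Nat.clog 2 n := Nat.clog_pos (by norm_num) hn
  rw [Nat.cast_sub h4] at h3
  have h5 : Real.log 2 ≤ Real.log n := Real.log_le_log (by norm_num) (by exact_mod_cast hn)
  have h6 := Real.log_two_gt_d9
  have h7 : (Nat.clog 2 n : ℝ) * Real.log 2 ≤ 2 * Real.log n := by
    push_cast at h3
    linarith
  have h8 : (0 : ℝ) ≤ Nat.clog 2 n := by positivity
  rw [hh]
  push_cast
  nlinarith

theorem hh_pos {n : ℕ} (hn : 2 ≤ n) : 0 < hh n := by
  have : 1 ≤ Nat.clog 2 n := Nat.clog_pos (by norm_num) hn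
  unfold hh
  omega

theorem degree_c2 {n : ℕ} (hn : 2 ≤ n) (v : Fin n) (p : ℝ) :
    (est (univ.erase v) {v} p (c2 (hh n))).totalDegree ≤ ⌈(3000 : ℝ) * Real.log n ^ 2⌉₊ := by
  refine degree_est _ _ _ _ fun m hm => ?_
  rw [Finset.card_singleton]
  have h1 := hh_le hn
  have h2 : 0 < hh n := hh_pos hn
  have h3 : m + 1 ≤ 5 * hh n := by
    rcases c2_ne hm with rfl | rfl <;> omega
  have h4 : ((m + 1 : ℕ) : ℝ) ≤ 5 * hh n := by exact_mod_cast h3
  have h5 : ((m + 1 : ℕ) : ℝ) ^ 2 ≤ 3000 * Real.log n ^ 2 := by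
    have h6 : ((m + 1 : ℕ) : ℝ) ≤ 45 * Real.log n := by linarith
    have h7 : (0 : ℝ) ≤ ((m + 1 : ℕ) : ℝ) := by positivity
    have h8 := pow_le_pow_left₀ h7 h6 2
    nlinarith [sq_nonneg (Real.log n)]
  have h9 : (((m + 1) ^ 2 : ℕ) : ℝ) ≤ (⌈(3000 : ℝ) * Real.log n ^ 2⌉₊ : ℝ) := by
    push_cast
    push_cast at h5
    exact h5.trans (Nat.le_ceil _)
  exact_mod_cast h9

theorem degree_c1 {n : ℕ} (hn : 2 ≤ n) (p : ℝ) :
    (est (univ : Finset (Fin n)) ∅ p (c1 (hh n))).totalDegree ≤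
      ⌈(3000 : ℝ) * Real.log n ^ 2⌉₊ := by
  refine degree_est _ _ _ _ fun m hm => ?_
  rw [Finset.card_empty]
  have h1 := hh_le hn
  have h2 : 0 < hh n := hh_pos hn
  have h3 : m + 0 ≤ 3 * hh n := by
    rw [c1_ne hm]
    omega
  have h4 : ((m + 0 : ℕ) : ℝ) ≤ 3 * hh n := by exact_mod_cast h3
  have h5 : ((m + 0 : ℕ) : ℝ) ^ 2 ≤ 3000 * Real.log n ^ 2 := by
    have h6 : ((m + 0 : ℕ) : ℝ) ≤ 27 * Real.log n := by linarith
    have h7 : (0 : ℝ) ≤ ((m + 0 : ℕ) : ℝ) := by positivity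
    have h8 := pow_le_pow_left₀ h7 h6 2
    nlinarith [sq_nonneg (Real.log n)]
  have h9 : (((m + 0) ^ 2 : ℕ) : ℝ) ≤ (⌈(3000 : ℝ) * Real.log n ^ 2⌉₊ : ℝ) := by
    push_cast
    push_cast at h5
    exact h5.trans (Nat.le_ceil _)
  exact_mod_cast h9

/-- The inequalities that hold for all large `n`. -/
structure Good (c : ℝ) (n : ℕ) (k : ℝ) : Prop where
  hn : 100 ≤ n
  hnc : 1 ≤ c * n
  hk : k ≤ n
  hlog : 1 ≤ Real.log n
  hL : Real.log n ^ 4 ≤ c * k

theorem Good.k_pos {c : ℝ} (hc : 0 < c) {n : ℕ} {k : ℝ} (h : Good c n k) : 0 < k := by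
  have h1 : 1 ≤ Real.log n ^ 4 := one_le_pow₀ h.hlog
  have h2 := h1.trans h.hL
  by_contra h3
  have := mul_nonpos_of_nonneg_of_nonpos hc.le (not_lt.1 h3)
  linarith

theorem eventually_good {k : ℕ → ℝ} (hk : ∀ n, 0 ≤ k n ∧ k n ≤ n)
    (hL : (fun n : ℕ => Real.log n ^ 4) =o[atTop] k) {c : ℝ} (hc : 0 < c) :
    ∀ᶠ n : ℕ in atTop, Good c n (k n) := by
  have h1 : ∀ᶠ n : ℕ in atTop, 1 ≤ c * n := by
    have : Tendsto (fun n : ℕ => c * (n : ℝ)) atTop atTop :=
      tendsto_natCast_atTop_atTop.const_mul_atTop hc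
    exact this.eventually_ge_atTop 1
  have h2 : ∀ᶠ n : ℕ in atTop, 1 ≤ Real.log n :=
    (Real.tendsto_log_atTop.comp tendsto_natCast_atTop_atTop).eventually_ge_atTop 1
  have h3 := hL.bound hc
  filter_upwards [eventually_ge_atTop 100, h1, h2, h3] with n e1 e2 e3 e4
  refine ⟨e1, e2, (hk n).2, e3, ?_⟩
  have h5 : 0 ≤ Real.log n ^ 4 := by positivity
  rwa [Real.norm_of_nonneg h5, Real.norm_of_nonneg (hk n).1] at e4

section
variable {c : ℝ} {n : ℕ} {k : ℝ}

/-- The consequences: all quantities in terms of `c`. -/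
theorem Good.facts (hc : 0 < c) (hc1 : c ≤ 1 / 100000) (g : Good c n k) :
    1 ≤ k ∧ 4 * hh n + 1 ≤ n ∧ 0 < k / n ∧ k / n ≤ 1 ∧
    ((8 * hh n + 2 : ℝ) * (1 / 2) ^ hh n / (k / n) ≤ 90 * c) ∧
    ((8 * hh n + 2 : ℝ) * (1 / 2) ^ hh n / (k / n) * k ≤ 90 / n) ∧
    (((4 * hh n : ℕ) : ℝ) ^ 2 * ((1 - k / n) / (k / n)) / ((n - 1 : ℕ) : ℝ) ≤
      2600 * Real.log n ^ 2 / k) ∧
    (2600 * Real.log n ^ 2 / k ≤ 2600 * c) := by
  obtain ⟨hn, hnc, hkn, hlog, hL⟩ := g
  have hn0 : (100 : ℝ) ≤ n := by exact_mod_cast hn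
  have hn1 : (0 : ℝ) < n := by linarith
  have hl4 : Real.log n ≤ Real.log n ^ 4 := le_self_pow₀ hlog (by norm_num)
  have hl2 : Real.log n ^ 2 ≤ Real.log n ^ 4 := pow_le_pow_right₀ hlog (by norm_num)
  have hck : 1 ≤ c * k := hlog.trans (hl4.trans hL)
  have hk0 : 0 < k := by
    by_contra h3
    have := mul_nonpos_of_nonneg_of_nonpos hc.le (not_lt.1 h3)
    linarith
  have hk1 : 1 ≤ k := by nlinarith
  have hh9 := hh_le (n := n) (by omega)
  have hp0 : 0 < k / n := by positivity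
  have hp1 : k / n ≤ 1 := by rw [div_le_one hn1]; exact hkn
  have hlogk : Real.log n ≤ c * k := hl4.trans hL
  have h4 : 4 * hh n + 1 ≤ n := by
    have h5 : (4 * hh n + 1 : ℝ) ≤ n := by nlinarith
    exact_mod_cast h5
  have hx : (8 * hh n + 2 : ℝ) ≤ 90 * Real.log n := by linarith
  have hpow := hh_pow (n := n)
  have hpow0 : (0 : ℝ) ≤ (1 / 2) ^ hh n := by positivity
  have h6 : (8 * hh n + 2 : ℝ) * (1 / 2) ^ hh n / (k / n) * k ≤ 90 * Real.log n / n ^ 2 := by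
    have e1 : (8 * hh n + 2 : ℝ) * (1 / 2) ^ hh n / (k / n) * k =
        (8 * hh n + 2 : ℝ) * ((1 / 2) ^ hh n * n ^ 3) / n ^ 2 := by
      field_simp
    rw [e1]
    have e2 : (8 * hh n + 2 : ℝ) * ((1 / 2) ^ hh n * n ^ 3) ≤ 90 * Real.log n * 1 :=
      mul_le_mul hx hpow (by positivity) (by positivity)
    rw [mul_one] at e2
    gcongr
  have hlogn : Real.log n ≤ n := Real.log_le_self hn1.le
  have h7 : 90 * Real.log n / (n : ℝ) ^ 2 ≤ 90 / n := by
    rw [div_le_div_iff₀ (by positivity) hn1]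
    nlinarith [mul_le_mul_of_nonneg_right hlogn hn1.le]
  have h8 : (8 * hh n + 2 : ℝ) * (1 / 2) ^ hh n / (k / n) ≤ 90 * c := by
    have e0 : 0 ≤ (8 * hh n + 2 : ℝ) * (1 / 2) ^ hh n / (k / n) := by positivity
    have e1 : (8 * hh n + 2 : ℝ) * (1 / 2) ^ hh n / (k / n) ≤
        (8 * hh n + 2 : ℝ) * (1 / 2) ^ hh n / (k / n) * k := le_mul_of_one_le_right e0 hk1
    have e2 : 90 / (n : ℝ) ≤ 90 * c := by
      rw [div_le_iff₀ hn1]
      linarith
    exact e1.trans (h6.trans (h7.trans e2))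
  have h9 : ((4 * hh n : ℕ) : ℝ) ^ 2 * ((1 - k / n) / (k / n)) / ((n - 1 : ℕ) : ℝ) ≤
      2600 * Real.log n ^ 2 / k := by
    have e1 : ((4 * hh n : ℕ) : ℝ) ^ 2 ≤ 1296 * Real.log n ^ 2 := by
      push_cast
      have := pow_le_pow_left₀ (by positivity : (0 : ℝ) ≤ hh n) hh9 2
      nlinarith
    have e2 : (1 - k / n) / (k / n) ≤ n / k := by
      rw [div_le_div_iff₀ hp0 hk0]
      have : (n : ℝ) * (k / n) = k := by field_simp
      rw [this]
      nlinarith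
    have e3 : (n : ℝ) / (1.25 : ℝ) ≤ ((n - 1 : ℕ) : ℝ) := by
      rw [Nat.cast_sub (by omega)]
      push_cast
      rw [div_le_iff₀ (by norm_num)]
      linarith
    have e4 : 0 ≤ (1 - k / n) / (k / n) := div_nonneg (by linarith) hp0.le
    calc ((4 * hh n : ℕ) : ℝ) ^ 2 * ((1 - k / n) / (k / n)) / ((n - 1 : ℕ) : ℝ)
        ≤ (1296 * Real.log n ^ 2) * (n / k) / (n / 1.25) := by gcongr
      _ = (1296 * 1.25) * Real.log n ^ 2 / k := by
          field_simp
      _ ≤ 2600 * Real.log n ^ 2 / k := by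
          gcongr
          norm_num
  have h10 : 2600 * Real.log n ^ 2 / k ≤ 2600 * c := by
    rw [div_le_iff₀ hk0]
    have := hl2.trans hL
    linarith
  exact ⟨hk1, h4, hp0, hp1, h8, h6.trans h7, h9, h10⟩

/-- The mean square error times `n`. -/
theorem Good.mmse (hc : 0 < c) (hc1 : c ≤ 1 / 100000) (g : Good c n k) :
    0 ≤ MMSE n (k / n) ⌈(3000 : ℝ) * Real.log n ^ 2⌉₊ ∧
    MMSE n (k / n) ⌈(3000 : ℝ) * Real.log n ^ 2⌉₊ ≤ 120000000 * c / n := by
  obtain ⟨hk1, h4, hp0, hp1, hx, hxk, hq, hqc⟩ := g.facts hc hc1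
  have hn2 : 2 ≤ n := by have := g.hn; omega
  have hn1 : (0 : ℝ) < n := by
    have : (2 : ℝ) ≤ n := by exact_mod_cast hn2
    linarith
  have hk0 : 0 < k := by linarith
  have hnn : ∀ f : {f : MvPolynomial (Edge n) ℝ //
      f.totalDegree ≤ ⌈(3000 : ℝ) * Real.log n ^ 2⌉₊},
      0 ≤ EP n (k / n) (fun S Y => (val f.1 Y - firstIn S) ^ 2) := by
    intro f
    have := EP_mono hp0.le hp1 (F := fun _ _ => 0)
      (G := fun S Y => (val f.1 Y - firstIn S) ^ 2) (fun S Y => sq_nonneg _)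
    rwa [EP_const] at this
  refine ⟨Real.iInf_nonneg hnn, ?_⟩
  set v : Fin n := ⟨0, by omega⟩ with hv
  have hfirst : ∀ S : Finset (Fin n), (firstIn S : ℝ) = if {v} ⊆ S then 1 else 0 := by
    intro S
    unfold firstIn
    have : (∃ w ∈ S, (w : ℕ) = 0) ↔ {v} ⊆ S := by
      rw [Finset.singleton_subset_iff]
      constructor
      · rintro ⟨w, hw, hw0⟩
        have : w = v := Fin.ext hw0
        rwa [← this]
      · intro h
        exact ⟨v, h, rfl⟩
    by_cases h : {v} ⊆ S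
    · rw [if_pos h, if_pos (this.2 h)]
    · rw [if_neg h, if_neg (fun h2 => h (this.1 h2))]
  have hq0 : 0 ≤ ((4 * hh n : ℕ) : ℝ) ^ 2 * ((1 - k / n) / (k / n)) / ((n - 1 : ℕ) : ℝ) := by
    have : 0 ≤ (1 - k / n) / (k / n) := div_nonneg (by linarith) hp0.le
    positivity
  have key := rooted (hh_pos hn2) h4 v hp0 hp1 (by linarith) (by linarith)
  have hbdd : BddBelow (Set.range fun f : {f : MvPolynomial (Edge n) ℝ //
      f.totalDegree ≤ ⌈(3000 : ℝ) * Real.log n ^ 2⌉₊} =>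
      EP n (k / n) (fun S Y => (val f.1 Y - firstIn S) ^ 2)) :=
    ⟨0, by rintro x ⟨f, rfl⟩; exact hnn f⟩
  have hle := ciInf_le hbdd ⟨est (univ.erase v) {v} (k / n) (c2 (hh n)), degree_c2 hn2 v _⟩
  simp only [hfirst] at hle
  have hM : MMSE n (k / n) ⌈(3000 : ℝ) * Real.log n ^ 2⌉₊ ≤
      k / n * (16 * (((4 * hh n : ℕ) : ℝ) ^ 2 * ((1 - k / n) / (k / n)) /
        ((n - 1 : ℕ) : ℝ)) ^ 2 + 72 * ((8 * hh n + 2) * (1 / 2) ^ hh n / (k / n))) := by
    refine le_trans ?_ key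
    unfold MMSE
    simp only [hfirst]
    exact hle
  refine hM.trans ?_
  have e1 : (((4 * hh n : ℕ) : ℝ) ^ 2 * ((1 - k / n) / (k / n)) / ((n - 1 : ℕ) : ℝ)) ^ 2 ≤
      (2600 * Real.log n ^ 2 / k) ^ 2 := pow_le_pow_left₀ hq0 hq 2
  have e2 : k * (2600 * Real.log n ^ 2 / k) ^ 2 ≤ 6760000 * c := by
    have : k * (2600 * Real.log n ^ 2 / k) ^ 2 = 6760000 * (Real.log n ^ 4 / k) := by
      field_simp
      ring
    rw [this]
    have e3 : Real.log n ^ 4 / k ≤ c := by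
      rw [div_le_iff₀ hk0]
      exact g.hL
    linarith
  have e4 : 90 / (n : ℝ) ≤ 90 * c := by
    rw [div_le_iff₀ hn1]
    linarith [g.hnc]
  rw [div_mul_eq_mul_div]
  refine div_le_div_of_nonneg_right ?_ hn1.le
  calc k * (16 * (((4 * hh n : ℕ) : ℝ) ^ 2 * ((1 - k / n) / (k / n)) /
        ((n - 1 : ℕ) : ℝ)) ^ 2 + 72 * ((8 * hh n + 2) * (1 / 2) ^ hh n / (k / n)))
      = 16 * (k * (((4 * hh n : ℕ) : ℝ) ^ 2 * ((1 - k / n) / (k / n)) /
        ((n - 1 : ℕ) : ℝ)) ^ 2) + 72 * ((8 * hh n + 2) * (1 / 2) ^ hh n / (k / n) * k) := by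
        ring
    _ ≤ 16 * (k * (2600 * Real.log n ^ 2 / k) ^ 2) + 72 * (90 / n) := by gcongr
    _ ≤ 16 * (6760000 * c) + 72 * (90 * c) := by linarith
    _ ≤ 120000000 * c := by linarith

/-- The detection bounds. -/
theorem Good.detect (hc : 0 < c) (hc1 : c ≤ 1 / 100000) (g : Good c n k) :
    EP n (k / n) (fun _ Y => (val (est univ ∅ (k / n) (c1 (hh n))) Y - 1) ^ 2) ≤ 20000 * c ∧
    EQ n (fun Y => val (est univ ∅ (k / n) (c1 (hh n))) Y ^ 2) ≤ 20000 * c := by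
  obtain ⟨hk1, h4, hp0, hp1, hx, hxk, hq, hqc⟩ := g.facts hc hc1
  have hn2 : 2 ≤ n := by have := g.hn; omega
  have hn1 : (0 : ℝ) < n := by
    have : (2 : ℝ) ≤ n := by exact_mod_cast hn2
    linarith
  have hρ : 0 ≤ (1 - k / n) / (k / n) := div_nonneg (by linarith) hp0.le
  have hpos := hh_pos hn2
  have hpos' : (1 : ℝ) ≤ hh n := by exact_mod_cast hpos
  have e1 : ((2 * hh n + 1 : ℕ) : ℝ) ^ 2 * ((1 - k / n) / (k / n)) / (n : ℝ) ≤ 2600 * c := by
    refine le_trans ?_ (hq.trans hqc)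
    have f1 : ((2 * hh n + 1 : ℕ) : ℝ) ≤ ((4 * hh n : ℕ) : ℝ) := by
      push_cast
      linarith
    have f2 : ((n - 1 : ℕ) : ℝ) ≤ n := by exact_mod_cast Nat.sub_le n 1
    have f3 : (0 : ℝ) < ((n - 1 : ℕ) : ℝ) := by
      have : 0 < n - 1 := by omega
      exact_mod_cast this
    gcongr
  have e2 : (4 * hh n + 2 : ℝ) * (1 / 2) ^ hh n / (k / n) ≤ 90 * c := by
    refine le_trans ?_ hx
    gcongr
    linarith
  obtain ⟨r1, r2⟩ := counts (n := n) (h := hh n) (by omega) hp0 hp1 (by linarith) (by linarith)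
  constructor
  · refine r1.trans ?_
    linarith
  · refine r2.trans ?_
    have e3 : (1 / 2 : ℝ) ^ hh n / (k / n) ≤ (4 * hh n + 2 : ℝ) * (1 / 2) ^ hh n / (k / n) := by
      gcongr
      exact le_mul_of_one_le_left (by positivity) (by linarith)
    linarith

end

/-- Strong separation from the two second moments. -/
theorem separates_of {k : ℕ → ℝ} (hk : ∀ n, 0 ≤ k n ∧ k n ≤ n)
    (f : ∀ n : ℕ, MvPolynomial (Edge n) ℝ)
    (h : ∀ δ > 0, ∀ᶠ n : ℕ in atTop, 0 < n ∧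
      EP n (k n / n) (fun _ Y => (val (f n) Y - 1) ^ 2) ≤ δ ∧
      EQ n (fun Y => val (f n) Y ^ 2) ≤ δ) : StronglySeparates k f := by
  have key : ∀ c > 0, ∀ᶠ n : ℕ in atTop,
      1 / 2 ≤ |EP n (k n / n) (fun _ Y => val (f n) Y) - EQ n (val (f n))| ∧
      √(max (VarP n (k n / n) (f n)) (VarQ n (f n))) ≤
        c * |EP n (k n / n) (fun _ Y => val (f n) Y) - EQ n (val (f n))| := by
    intro c hc
    set d : ℝ := min (c / 2) (1 / 4) with hd
    have hd0 : 0 < d := lt_min (by linarith) (by norm_num)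
    filter_upwards [h (d ^ 2) (by positivity)] with n hn
    obtain ⟨hn0, hP, hQ⟩ := hn
    have hn1 : (0 : ℝ) < n := by exact_mod_cast hn0
    have hp0 : 0 ≤ k n / n := div_nonneg (hk n).1 hn1.le
    have hp1 : k n / n ≤ 1 := by rw [div_le_one hn1]; exact (hk n).2
    have sP := second_moment (LP n (k n / n)) (EP_const n (k n / n) 1) (fun ω => val (f n) ω.2) 1
    have sQ := second_moment (LQ n) (EQ_const n 1) (val (f n)) 0
    change EP n (k n / n) (fun _ Y => (val (f n) Y - 1) ^ 2) = VarP n (k n / n) (f n) +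
      (EP n (k n / n) (fun _ Y => val (f n) Y) - 1) ^ 2 at sP
    change EQ n (fun Y => (val (f n) Y - 0) ^ 2) = VarQ n (f n) +
      (EQ n (val (f n)) - 0) ^ 2 at sQ
    simp only [sub_zero] at sQ
    set mP := EP n (k n / n) (fun _ Y => val (f n) Y) with hmP
    set mQ := EQ n (val (f n)) with hmQ
    have vP : 0 ≤ VarP n (k n / n) (f n) := by
      unfold VarP
      have := EP_mono hp0 hp1 (F := fun _ _ => 0)
        (G := fun _ Y => (val (f n) Y - EP n (k n / n) (fun _ Y => val (f n) Y)) ^ 2)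
        (fun S Y => sq_nonneg _)
      rwa [EP_const] at this
    have vQ : 0 ≤ VarQ n (f n) := EQ_nonneg fun Y => sq_nonneg _
    have aP : |mP - 1| ≤ d := abs_le_of_sq_le_sq (by nlinarith) hd0.le
    have aQ : |mQ| ≤ d := abs_le_of_sq_le_sq (by nlinarith) hd0.le
    have hmax : max (VarP n (k n / n) (f n)) (VarQ n (f n)) ≤ d ^ 2 :=
      max_le (by nlinarith [sq_nonneg (mP - 1)]) (by nlinarith [sq_nonneg mQ])
    have hsq : √(max (VarP n (k n / n) (f n)) (VarQ n (f n))) ≤ d := by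
      rw [Real.sqrt_le_left hd0.le]
      exact hmax
    have hd4 : d ≤ 1 / 4 := min_le_right _ _
    have hdc : d ≤ c / 2 := min_le_left _ _
    have hdiff : 1 / 2 ≤ |mP - mQ| := by
      have := abs_le.1 aP
      have := abs_le.1 aQ
      refine le_trans ?_ (le_abs_self _)
      linarith
    refine ⟨hdiff, ?_⟩
    calc √(max (VarP n (k n / n) (f n)) (VarQ n (f n))) ≤ d := hsq
      _ ≤ c * (1 / 2) := by linarith
      _ ≤ c * |mP - mQ| := by gcongr
  refine ⟨?_, ?_⟩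
  · filter_upwards [key 1 one_pos] with n hn h
    have h1 := hn.1
    rw [h, sub_self, abs_zero] at h1
    linarith
  · rw [isLittleO_iff]
    intro c hc
    filter_upwards [key c hc] with n hn
    rw [Real.norm_of_nonneg (Real.sqrt_nonneg _), Real.norm_of_nonneg (abs_nonneg _)]
    exact hn.2

/-- **The uniform result.** -/
theorem succeeds {k : ℕ → ℝ} (hk : ∀ n, 0 ≤ k n ∧ k n ≤ n)
    (hL : (fun n : ℕ => Real.log n ^ 4) =o[atTop] k) :
    Succeeds k (fun n => ⌈(3000 : ℝ) * Real.log n ^ 2⌉₊) := by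
  constructor
  · refine ⟨fun n => if 2 ≤ n then est univ ∅ (k n / n) (c1 (hh n)) else 0, ?_, ?_⟩
    · intro n
      by_cases hn : 2 ≤ n
      · simp only [if_pos hn]
        exact degree_c1 hn _
      · simp only [if_neg hn]
        simp
    · refine separates_of hk _ fun δ hδ => ?_
      have hc : 0 < min (1 / 100000) (δ / 20000) := lt_min (by norm_num) (by positivity)
      filter_upwards [eventually_good hk hL hc] with n g
      have hn : 2 ≤ n := by have := g.hn; omega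
      obtain ⟨r1, r2⟩ := g.detect hc (min_le_left _ _)
      have hle : 20000 * min (1 / 100000) (δ / 20000) ≤ δ := by
        have := min_le_right (1 / 100000) (δ / 20000)
        linarith
      simp only [if_pos hn]
      exact ⟨by omega, r1.trans hle, r2.trans hle⟩
  · rw [isLittleO_iff]
    intro δ hδ
    have hc : 0 < min (1 / 100000) (δ / 120000000) := lt_min (by norm_num) (by positivity)
    filter_upwards [eventually_good hk hL hc] with n g
    obtain ⟨r1, r2⟩ := g.mmse hc (min_le_left _ _)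
    have hn1 : (0 : ℝ) ≤ n := by positivity
    rw [Real.norm_of_nonneg r1, Real.norm_of_nonneg (by positivity)]
    refine r2.trans ?_
    rw [mul_one_div]
    refine div_le_div_of_nonneg_right ?_ hn1
    have := min_le_right (1 / 100000) (δ / 120000000)
    linarith

end Pool.Agent.T2H49.PC
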