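import Mathlib

/-!
# Planted clique: definitions

The random graph `G(n, 1/2)`, the planted clique distribution, polynomials in the edge indicators,
strong separation and the low degree minimum mean square error.
-/

namespace Pool.Agent.T2H49.PC

open Finset Filter

/-- The possible edges of a graph on `Fin n`: the pairs of distinct vertices. -/
abbrev Edge (n : ℕ) := {e : Sym2 (Fin n) // ¬ e.IsDiag}

/-- The mean of `F` under the null distribution `G(n, 1/2)`. -/
noncomputable def EQ (n : ℕ) (F : (Edge n → Bool) → ℝ) : ℝ :=
  (∑ Y : Edge n → Bool, F Y) / 2 ^ Fintype.card (Edge n)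

open Classical in
/-- The union of the graph `Y` with the complete graph on `S`. -/
noncomputable def plant {n : ℕ} (S : Finset (Fin n)) (Y : Edge n → Bool) : Edge n → Bool :=
  fun e => if ∀ v ∈ e.1, v ∈ S then true else Y e

/-- The mean of `F S Y` under the planted distribution: every vertex is put in `S` independently
with probability `p`, and `Y` is the union of an independent `G(n, 1/2)` with the complete graph
on `S`. -/
noncomputable def EP (n : ℕ) (p : ℝ) (F : Finset (Fin n) → (Edge n → Bool) → ℝ) : ℝ :=
  ∑ S : Finset (Fin n), p ^ S.card * (1 - p) ^ (n - S.card) * EQ n (fun Y => F S (plant S Y))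

/-- The value of a real polynomial at the edge indicators of the graph `Y`. -/
noncomputable def val {n : ℕ} (f : MvPolynomial (Edge n) ℝ) (Y : Edge n → Bool) : ℝ :=
  MvPolynomial.eval (fun e => if Y e then (1 : ℝ) else 0) f

/-- The variance of `f(Y)` under the null distribution. -/
noncomputable def VarQ (n : ℕ) (f : MvPolynomial (Edge n) ℝ) : ℝ :=
  EQ n (fun Y => (val f Y - EQ n (val f)) ^ 2)

/-- The variance of `f(Y)` under the planted distribution. -/
noncomputable def VarP (n : ℕ) (p : ℝ) (f : MvPolynomial (Edge n) ℝ) : ℝ :=
  EP n p (fun _ Y => (val f Y - EP n p (fun _ Y => val f Y)) ^ 2)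

/-- The polynomials `f n` strongly separate the planted distributions with `S` of mean size `k n`
from the null distributions: the two means are different for all large `n`, and the standard
deviations are small compared with the difference of the means. (The first condition excludes
constant polynomials, for which both sides of the second condition vanish.) -/
def StronglySeparates (k : ℕ → ℝ) (f : ∀ n : ℕ, MvPolynomial (Edge n) ℝ) : Prop :=
  (∀ᶠ n : ℕ in atTop, EP n (k n / n) (fun _ Y => val (f n) Y) ≠ EQ n (val (f n))) ∧
  (fun n : ℕ => √(max (VarP n (k n / n) (f n)) (VarQ n (f n)))) =o[atTop]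
    (fun n : ℕ => |EP n (k n / n) (fun _ Y => val (f n) Y) - EQ n (val (f n))|)

open Classical in
/-- The indicator that the first vertex is in `S`. -/
noncomputable def firstIn {n : ℕ} (S : Finset (Fin n)) : ℝ :=
  if ∃ v ∈ S, (v : ℕ) = 0 then 1 else 0

/-- The least mean square error of a polynomial of degree at most `D` as an estimator of the
indicator that the first vertex is in `S`. -/
noncomputable def MMSE (n : ℕ) (p : ℝ) (D : ℕ) : ℝ :=
  ⨅ f : {f : MvPolynomial (Edge n) ℝ // f.totalDegree ≤ D},
    EP n p (fun S Y => (val f.1 Y - firstIn S) ^ 2)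

/-- Degree `D n` succeeds for the planted clique problem with `S` of mean size `k n`: some
polynomials of degree at most `D n` strongly separate, and the error `MMSE` is `o(1/n)`. -/
def Succeeds (k : ℕ → ℝ) (D : ℕ → ℕ) : Prop :=
  (∃ f : ∀ n : ℕ, MvPolynomial (Edge n) ℝ, (∀ n, (f n).totalDegree ≤ D n) ∧
    StronglySeparates k f) ∧
  (fun n : ℕ => MMSE n (k n / n) (D n)) =o[atTop] (fun n : ℕ => 1 / (n : ℝ))

end Pool.Agent.T2H49.PC
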