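import Pool.Agent.T2H49.PC.Sym

/-!
# The polynomials
-/

namespace Pool.Agent.T2H49.PC

open Finset

/-- The symmetric combination of the indicators of the cliques on the sets `A ∪ R`, `A ⊆ W`. -/
noncomputable def est {n : ℕ} (W R : Finset (Fin n)) (p : ℝ) (a : ℕ → ℝ) :
    MvPolynomial (Edge n) ℝ :=
  ∑ A ∈ W.powerset, MvPolynomial.C (wt W.card p a A.card) *
    ∏ e ∈ EE (A ∪ R), MvPolynomial.X e

theorem val_est {n : ℕ} (W R : Finset (Fin n)) (p : ℝ) (a : ℕ → ℝ) (Y : Edge n → Bool) :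
    val (est W R p a) Y = ∑ A ∈ W.powerset, wt W.card p a A.card * ind (EE (A ∪ R)) Y := by
  simp [val, est, ind, map_sum, map_prod]

theorem card_EE_le {n : ℕ} (A : Finset (Fin n)) : (EE A).card ≤ A.card ^ 2 := by
  classical
  have h1 : ((EE A).image Subtype.val).card = (EE A).card :=
    Finset.card_image_of_injective _ Subtype.val_injective
  have h2 : (EE A).image Subtype.val ⊆ A.sym2 := by
    intro e he
    obtain ⟨e', he', rfl⟩ := Finset.mem_image.1 he
    exact Finset.mem_sym2_iff.2 (mem_EE.1 he')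
  rw [← h1]
  refine (Finset.card_le_card h2).trans ?_
  rw [Finset.card_sym2, Nat.choose_two_right, Nat.add_sub_cancel]
  refine Nat.div_le_of_le_mul ?_
  rcases Nat.eq_zero_or_pos A.card with h | h
  · rw [h]; simp
  · nlinarith

theorem wt_zero {N : ℕ} {p : ℝ} {a : ℕ → ℝ} {m : ℕ} (h : a m = 0) : wt N p a m = 0 := by
  simp [wt, h]

theorem degree_est {n D : ℕ} (W R : Finset (Fin n)) (p : ℝ) (a : ℕ → ℝ)
    (h : ∀ m, a m ≠ 0 → (m + R.card) ^ 2 ≤ D) : (est W R p a).totalDegree ≤ D := by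
  refine (MvPolynomial.totalDegree_finsetSum _ _).trans (Finset.sup_le fun A _ => ?_)
  by_cases hA : a A.card = 0
  · rw [wt_zero hA]
    simp
  · refine (MvPolynomial.totalDegree_mul _ _).trans ?_
    rw [MvPolynomial.totalDegree_C, zero_add]
    refine (MvPolynomial.totalDegree_finsetProd _ _).trans ?_
    simp only [MvPolynomial.totalDegree_X, Finset.sum_const, smul_eq_mul, mul_one]
    refine (card_EE_le _).trans (le_trans ?_ (h _ hA))
    exact Nat.pow_le_pow_left (Finset.card_union_le A R) 2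

theorem eta_bound {p b : ℝ} (h0 : 0 < p) (h1 : p ≤ 1) (hb : 0 ≤ b) {m : ℕ} {x : ℝ}
    (hm : (m : ℝ) ≤ x) (hx : x * b / p ≤ 1) :
    (p + (1 - p) * b) ^ m - p ^ m ≤ 2 * x * b / p * p ^ m := by
  have h2 : (p + (1 - p) * b) ^ m ≤ (p + b) ^ m := by
    have : 0 ≤ (1 - p) * b := mul_nonneg (by linarith) hb
    refine pow_le_pow_left₀ (by linarith) ?_ m
    nlinarith
  have h3 : (p + b) ^ m = p ^ m * (1 + b / p) ^ m := by
    rw [← mul_pow]
    congr 1
    field_simp
  have hbp : 0 ≤ b / p := by positivity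
  have h4 : (1 + b / p) ^ m ≤ Real.exp (m * (b / p)) := by
    rw [Real.exp_nat_mul]
    refine pow_le_pow_left₀ (by positivity) ?_ m
    linarith [Real.add_one_le_exp (b / p)]
  have h5 : (m : ℝ) * (b / p) ≤ x * b / p := by
    rw [mul_div_assoc]
    exact mul_le_mul_of_nonneg_right hm hbp
  have h6 : Real.exp (x * b / p) ≤ 1 + 2 * (x * b / p) := by
    have h7 : 0 ≤ x * b / p := le_trans (by positivity) h5
    have h8 := Real.abs_exp_sub_one_le (x := x * b / p) (by rw [abs_of_nonneg h7]; exact hx)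
    rw [abs_of_nonneg h7] at h8
    linarith [le_abs_self (Real.exp (x * b / p) - 1)]
  have h9 : (1 + b / p) ^ m ≤ 1 + 2 * (x * b / p) :=
    h4.trans ((Real.exp_le_exp.2 h5).trans h6)
  have h10 : 0 < p ^ m := by positivity
  calc (p + (1 - p) * b) ^ m - p ^ m ≤ p ^ m * (1 + 2 * (x * b / p)) - p ^ m := by
        rw [h3] at h2
        have := mul_le_mul_of_nonneg_left h9 h10.le
        linarith
    _ = 2 * x * b / p * p ^ m := by ring

/-- **The error of the estimator.** -/
theorem error_est {n h : ℕ} (W R : Finset (Fin n)) (hWR : Disjoint W R) {p x : ℝ} (h0 : 0 < p)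
    (h1 : p ≤ 1) (a : ℕ → ℝ) (ha : ∀ m, a m ≠ 0 → 2 * h + 1 ≤ m + R.card)
    (ha2 : ∀ m, a m ≠ 0 → 2 * ((m : ℝ) + R.card) ≤ x) (hx : x * (1 / 2) ^ h / p ≤ 1) :
    EP n p (fun S Y => (val (est W R p a) Y - if R ⊆ S then 1 else 0) ^ 2) ≤
      p ^ R.card * (2 * ∑ l ∈ range (W.card + 1), ((1 - p) / p) ^ l *
        lev W.card (fun j => a j - if j = 0 then 1 else 0) l ^ 2 / (W.card.choose l : ℝ) +
        2 * (2 * x * (1 / 2) ^ h / p) * ∑ l ∈ range (W.card + 1), ((1 - p) / p) ^ l *
          lev W.card (fun j => |a j|) l ^ 2 / (W.card.choose l : ℝ)) := by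
  classical
  set a' : ℕ → ℝ := fun j => a j - if j = 0 then 1 else 0 with ha'
  have hdisj : ∀ A ∈ W.powerset, Disjoint A R := fun A hA =>
    Finset.disjoint_of_subset_left (Finset.mem_powerset.1 hA) hWR
  have hcard : ∀ A ∈ W.powerset, (A ∪ R).card = A.card + R.card := fun A hA =>
    Finset.card_union_of_disjoint (hdisj A hA)
  have hunion : ∀ A ∈ W.powerset, ∀ B ∈ W.powerset,
      p ^ ((A ∪ R) ∪ (B ∪ R)).card = p ^ R.card * p ^ (A ∪ B).card := by
    intro A hA B hB
    rw [show (A ∪ R) ∪ (B ∪ R) = (A ∪ B) ∪ R by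
      ext v; simp only [Finset.mem_union]; tauto,
      Finset.card_union_of_disjoint (Finset.disjoint_union_left.2 ⟨hdisj A hA, hdisj B hB⟩),
      pow_add]
    ring
  have hδ : ∀ S : Finset (Fin n), (if R ⊆ S then (1 : ℝ) else 0) =
      ∑ A ∈ W.powerset, wt W.card p (fun j => if j = 0 then 1 else 0) A.card *
        if A ∪ R ⊆ S then 1 else 0 := by
    intro S
    rw [Finset.sum_eq_single ∅]
    · simp [wt]
    · intro A _ hA
      have : A.card ≠ 0 := fun h => hA (Finset.card_eq_zero.1 h)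
      simp [wt, this]
    · intro h
      exact absurd (Finset.empty_mem_powerset W) h
  have hdec : ∀ S Y, val (est W R p a) Y - (if R ⊆ S then 1 else 0) =
      (∑ A ∈ W.powerset, wt W.card p a A.card *
        (ind (EE (A ∪ R)) Y - if A ∪ R ⊆ S then 1 else 0)) +
      ∑ A ∈ W.powerset, wt W.card p a' A.card * if A ∪ R ⊆ S then 1 else 0 := by
    intro S Y
    rw [val_est, hδ S, ← Finset.sum_sub_distrib, ← Finset.sum_add_distrib]
    refine Finset.sum_congr rfl fun A _ => ?_
    simp only [wt, ha']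
    ring
  have hle : EP n p (fun S Y => (val (est W R p a) Y - if R ⊆ S then 1 else 0) ^ 2) ≤
      2 * EP n p (fun S Y => (∑ A ∈ W.powerset, wt W.card p a A.card *
        (ind (EE (A ∪ R)) Y - if A ∪ R ⊆ S then 1 else 0)) ^ 2) +
      2 * EP n p (fun S _ => (∑ A ∈ W.powerset, wt W.card p a' A.card *
        if A ∪ R ⊆ S then 1 else 0) ^ 2) := by
    rw [← EP_mul, ← EP_mul, ← EP_add]
    refine EP_mono h0.le h1 fun S Y => ?_
    rw [hdec]
    nlinarith [sq_nonneg ((∑ A ∈ W.powerset, wt W.card p a A.card *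
        (ind (EE (A ∪ R)) (plant S Y) - if A ∪ R ⊆ S then 1 else 0)) -
        ∑ A ∈ W.powerset, wt W.card p a' A.card * if A ∪ R ⊆ S then 1 else 0)]
  have hmain : EP n p (fun S _ => (∑ A ∈ W.powerset, wt W.card p a' A.card *
        if A ∪ R ⊆ S then 1 else 0) ^ 2) =
      p ^ R.card * ∑ l ∈ range (W.card + 1), ((1 - p) / p) ^ l *
        lev W.card a' l ^ 2 / (W.card.choose l : ℝ) := by
    rw [EP_eq]
    simp only [EQ_const]
    rw [ES_main, ← parseval W h0 a', Finset.mul_sum]
    refine Finset.sum_congr rfl fun A hA => ?_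
    rw [Finset.mul_sum]
    refine Finset.sum_congr rfl fun B hB => ?_
    rw [hunion A hA B hB]
    ring
  have hrem := EP_rem (n := n) (h := h) (p := p) (η := 2 * x * (1 / 2) ^ h / p) h0.le h1
    W.powerset (fun A => wt W.card p a A.card) (fun A => A ∪ R)
    (by
      intro A hA hw
      rw [hcard A hA]
      exact ha _ fun h => hw (wt_zero h))
    (by
      intro A hA B hB hwA hwB
      refine eta_bound h0 h1 (by positivity) ?_ hx
      have k1 := ha2 _ fun h => hwA (wt_zero h)
      have k2 := ha2 _ fun h => hwB (wt_zero h)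
      have k3 : ((A ∪ R ∪ (B ∪ R)).card : ℝ) ≤ ((A ∪ R).card : ℝ) + (B ∪ R).card := by
        exact_mod_cast Finset.card_union_le _ _
      rw [hcard A hA, hcard B hB] at k3
      push_cast at k3
      linarith)
  have habs : ∑ A ∈ W.powerset, ∑ B ∈ W.powerset,
      |wt W.card p a A.card| * |wt W.card p a B.card| * p ^ ((A ∪ R) ∪ (B ∪ R)).card =
      p ^ R.card * ∑ l ∈ range (W.card + 1), ((1 - p) / p) ^ l *
        lev W.card (fun j => |a j|) l ^ 2 / (W.card.choose l : ℝ) := by
    rw [← parseval W h0 (fun j => |a j|), Finset.mul_sum]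
    refine Finset.sum_congr rfl fun A hA => ?_
    rw [Finset.mul_sum]
    refine Finset.sum_congr rfl fun B hB => ?_
    rw [hunion A hA B hB]
    have k : ∀ m, |wt W.card p a m| = wt W.card p (fun j => |a j|) m := by
      intro m
      have : 0 ≤ (W.card.choose m : ℝ) * p ^ m := by positivity
      simp only [wt, abs_div, abs_of_nonneg this]
    rw [k, k]
    ring
  rw [habs] at hrem
  rw [hmain] at hle
  linarith

/-- **The second moment under the null distribution.** -/
theorem null_est {n h : ℕ} (W : Finset (Fin n)) {p : ℝ} (h0 : 0 < p)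
    (hp : (1 / 2) ^ h ≤ p) (a : ℕ → ℝ) (hnn : ∀ m, 0 ≤ a m)
    (ha : ∀ m, a m ≠ 0 → 2 * h + 1 ≤ m) :
    EQ n (fun Y => val (est W ∅ p a) Y ^ 2) ≤
      (1 / 2) ^ h / p * ∑ l ∈ range (W.card + 1), ((1 - p) / p) ^ l *
          lev W.card a l ^ 2 / (W.card.choose l : ℝ) := by
  have h1 := EQ_sq (n := n) (h := h) (p := p) h0 hp W.powerset
    (fun A => wt W.card p a A.card)
    (fun A _ => div_nonneg (hnn _) (by positivity)) (fun A => A ∪ ∅)
    (by
      intro A _ hw
      rw [Finset.union_empty]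
      exact ha _ fun h => hw (wt_zero h))
  simp only [val_est]
  refine h1.trans (le_of_eq ?_)
  rw [← parseval W h0 a]
  simp only [Finset.union_empty]

end Pool.Agent.T2H49.PC
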