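import Pool.Agent.T2H49.PC.Defs

/-!
# Expectations
-/

namespace Pool.Agent.T2H49.PC

open Finset

/-- The mean under the null distribution as a linear map. -/
noncomputable def LQ (n : ℕ) : ((Edge n → Bool) → ℝ) →ₗ[ℝ] ℝ where
  toFun := EQ n
  map_add' F G := by
    simp only [EQ, Pi.add_apply, Finset.sum_add_distrib, add_div]
  map_smul' c F := by
    simp only [EQ, Pi.smul_apply, smul_eq_mul, ← Finset.mul_sum, RingHom.id_apply, mul_div_assoc]

theorem LQ_apply (n : ℕ) (F : (Edge n → Bool) → ℝ) : LQ n F = EQ n F := rfl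

theorem EQ_const (n : ℕ) (c : ℝ) : EQ n (fun _ => c) = c := by
  have : (2 : ℝ) ^ Fintype.card (Edge n) ≠ 0 := by positivity
  simp only [EQ, Finset.sum_const, Finset.card_univ, Fintype.card_fun, Fintype.card_bool,
    nsmul_eq_mul, Nat.cast_pow, Nat.cast_ofNat]
  field_simp

theorem EQ_nonneg {n : ℕ} {F : (Edge n → Bool) → ℝ} (h : ∀ Y, 0 ≤ F Y) : 0 ≤ EQ n F :=
  div_nonneg (Finset.sum_nonneg fun Y _ => h Y) (by positivity)

theorem EQ_mono {n : ℕ} {F G : (Edge n → Bool) → ℝ} (h : ∀ Y, F Y ≤ G Y) : EQ n F ≤ EQ n G := by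
  unfold EQ
  gcongr with Y
  exact h Y

theorem EQ_mul (n : ℕ) (c : ℝ) (F : (Edge n → Bool) → ℝ) :
    EQ n (fun Y => c * F Y) = c * EQ n F := (LQ n).map_smul c F

theorem EQ_add (n : ℕ) (F G : (Edge n → Bool) → ℝ) :
    EQ n (fun Y => F Y + G Y) = EQ n F + EQ n G := (LQ n).map_add F G

theorem EQ_sum {ι : Type*} (n : ℕ) (s : Finset ι) (F : ι → (Edge n → Bool) → ℝ) :
    EQ n (fun Y => ∑ i ∈ s, F i Y) = ∑ i ∈ s, EQ n (F i) := by
  have := map_sum (LQ n) F s
  rw [LQ_apply] at this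
  rw [show (fun Y => ∑ i ∈ s, F i Y) = ∑ i ∈ s, F i by ext Y; simp]
  exact this

open Classical in
/-- The edges with both ends in `A`. -/
noncomputable def EE {n : ℕ} (A : Finset (Fin n)) : Finset (Edge n) :=
  univ.filter fun e => ∀ v ∈ e.1, v ∈ A

theorem mem_EE {n : ℕ} {A : Finset (Fin n)} {e : Edge n} : e ∈ EE A ↔ ∀ v ∈ e.1, v ∈ A := by
  simp [EE]

theorem EE_mono {n : ℕ} {A B : Finset (Fin n)} (h : A ⊆ B) : EE A ⊆ EE B := fun _ he =>
  mem_EE.2 fun v hv => h (mem_EE.1 he v hv)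

/-- The product of the edge indicators of the edges in `T`. -/
noncomputable def ind {n : ℕ} (T : Finset (Edge n)) (Y : Edge n → Bool) : ℝ :=
  ∏ e ∈ T, if Y e then 1 else 0

theorem ind_nonneg {n : ℕ} (T : Finset (Edge n)) (Y : Edge n → Bool) : 0 ≤ ind T Y :=
  Finset.prod_nonneg fun _ _ => by split_ifs <;> norm_num

theorem EQ_ind {n : ℕ} (T : Finset (Edge n)) : EQ n (ind T) = (1 / 2) ^ T.card := by
  classical
  have h1 : ∀ Y : Edge n → Bool, ind T Y =
      ∏ e, (if e ∈ T then (if Y e then (1 : ℝ) else 0) else 1) := by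
    intro Y
    rw [ind, Finset.prod_ite_mem]
    simp
  have h2 : ∑ Y : Edge n → Bool, ind T Y =
      ∏ e : Edge n, ∑ b : Bool, (if e ∈ T then (if b then (1 : ℝ) else 0) else 1) := by
    simp only [h1]
    rw [Finset.prod_univ_sum, Fintype.piFinset_univ]
  have h3 : ∀ e : Edge n, ∑ b : Bool, (if e ∈ T then (if b then (1 : ℝ) else 0) else 1) =
      if e ∈ T then 1 else 2 := by
    intro e
    split_ifs <;> simp
  rw [EQ, h2]
  simp only [h3]
  have h4 : ∏ e : Edge n, (if e ∈ T then (1 : ℝ) else 2) = 2 ^ (Fintype.card (Edge n) - T.card) := by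
    rw [Finset.prod_ite]
    simp only [prod_const_one, one_mul, prod_const]
    congr 1
    rw [← Finset.card_univ, ← Finset.card_sdiff_of_subset (Finset.subset_univ T)]
    congr 1
    ext e
    simp
  rw [h4]
  have h5 : T.card ≤ Fintype.card (Edge n) := Finset.card_le_univ T
  rw [div_pow, one_pow, div_eq_div_iff (by positivity) (by positivity), one_mul, ← pow_add,
    Nat.sub_add_cancel h5]

theorem ind_plant {n : ℕ} (S : Finset (Fin n)) (T : Finset (Edge n)) [DecidableEq (Edge n)]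
    (Y : Edge n → Bool) : ind T (plant S Y) = ind (T \ EE S) Y := by
  unfold ind
  rw [← Finset.prod_sdiff (Finset.inter_subset_left : T ∩ EE S ⊆ T)]
  have h1 : ∏ e ∈ T ∩ EE S, (if plant S Y e then (1 : ℝ) else 0) = 1 := by
    refine Finset.prod_eq_one fun e he => ?_
    have := mem_EE.1 (Finset.mem_inter.1 he).2
    rw [plant, if_pos this]
    simp
  rw [h1, mul_one, Finset.sdiff_inter_self_left]
  refine Finset.prod_congr rfl fun e he => ?_
  have : ¬ ∀ v ∈ e.1, v ∈ S := fun h => (Finset.mem_sdiff.1 he).2 (mem_EE.2 h)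
  simp only [plant, if_neg this]

theorem ind_mul {n : ℕ} (T U : Finset (Edge n)) [DecidableEq (Edge n)] (Y : Edge n → Bool) :
    ind T Y * ind U Y = ind (T ∪ U) Y := by
  have key : ∀ T : Finset (Edge n), ind T Y = if ∀ e ∈ T, Y e = true then 1 else 0 := by
    intro T
    rw [ind, Finset.prod_ite_zero]
    simp
  rw [key, key, key]
  by_cases h1 : ∀ e ∈ T, Y e = true <;> by_cases h2 : ∀ e ∈ U, Y e = true
  · rw [if_pos h1, if_pos h2, if_pos (by
      intro e he
      rcases Finset.mem_union.1 he with h | h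
      · exact h1 e h
      · exact h2 e h)]
    norm_num
  · have h3 : ¬ ∀ e ∈ T ∪ U, Y e = true := fun h =>
      h2 fun e he => h e (Finset.mem_union_right _ he)
    rw [if_neg h2, if_neg h3]
    simp
  · have h3 : ¬ ∀ e ∈ T ∪ U, Y e = true := fun h =>
      h1 fun e he => h e (Finset.mem_union_left _ he)
    rw [if_neg h1, if_neg h3]
    simp
  · have h3 : ¬ ∀ e ∈ T ∪ U, Y e = true := fun h =>
      h1 fun e he => h e (Finset.mem_union_left _ he)
    rw [if_neg h1, if_neg h3]
    simp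

/-- The mean over the random set `S`. -/
noncomputable def ES (n : ℕ) (p : ℝ) (F : Finset (Fin n) → ℝ) : ℝ :=
  ∑ S : Finset (Fin n), p ^ S.card * (1 - p) ^ (n - S.card) * F S

theorem EP_eq (n : ℕ) (p : ℝ) (F : Finset (Fin n) → (Edge n → Bool) → ℝ) :
    EP n p F = ES n p (fun S => EQ n (fun Y => F S (plant S Y))) := rfl

theorem ES_add (n : ℕ) (p : ℝ) (F G : Finset (Fin n) → ℝ) :
    ES n p (fun S => F S + G S) = ES n p F + ES n p G := by
  simp only [ES, mul_add, Finset.sum_add_distrib]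

theorem ES_mul (n : ℕ) (p c : ℝ) (F : Finset (Fin n) → ℝ) :
    ES n p (fun S => c * F S) = c * ES n p F := by
  simp only [ES, Finset.mul_sum]
  exact Finset.sum_congr rfl fun S _ => by ring

theorem ES_sum {ι : Type*} (n : ℕ) (p : ℝ) (s : Finset ι) (F : ι → Finset (Fin n) → ℝ) :
    ES n p (fun S => ∑ i ∈ s, F i S) = ∑ i ∈ s, ES n p (F i) := by
  simp only [ES, Finset.mul_sum]
  exact Finset.sum_comm

theorem ES_mono {n : ℕ} {p : ℝ} (h0 : 0 ≤ p) (h1 : p ≤ 1) {F G : Finset (Fin n) → ℝ}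
    (h : ∀ S, F S ≤ G S) : ES n p F ≤ ES n p G := by
  have h2 : 0 ≤ 1 - p := by linarith
  refine Finset.sum_le_sum fun S _ => mul_le_mul_of_nonneg_left (h S) (by positivity)

/-- The mean of `b ^ |M \ S|`. -/
theorem ES_pow {n : ℕ} (p b : ℝ) (M : Finset (Fin n)) :
    ES n p (fun S => b ^ (M \ S).card) = (p + (1 - p) * b) ^ M.card := by
  have h1 : ∀ S : Finset (Fin n), p ^ S.card * (1 - p) ^ (n - S.card) * b ^ (M \ S).card =
      (∏ _i ∈ S, p) * ∏ i ∈ univ \ S, ((1 - p) * if i ∈ M then b else 1) := by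
    intro S
    rw [Finset.prod_const, Finset.prod_mul_distrib, Finset.prod_const,
      Finset.card_sdiff_of_subset (Finset.subset_univ S), Finset.card_univ, Fintype.card_fin,
      Finset.prod_ite, Finset.prod_const, Finset.prod_const_one, mul_one, mul_assoc]
    congr 3
    congr 1
    ext i
    simp [and_comm]
  have h2 := Finset.prod_add (fun _ : Fin n => p) (fun i => (1 - p) * if i ∈ M then b else 1) univ
  rw [ES]
  simp only [h1]
  rw [Finset.powerset_univ] at h2
  rw [← h2]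
  have h3 : ∀ i : Fin n, p + (1 - p) * (if i ∈ M then b else 1) =
      if i ∈ M then p + (1 - p) * b else 1 := by
    intro i
    split_ifs <;> ring
  simp only [h3]
  rw [Finset.prod_ite_mem]
  simp

theorem ES_subset {n : ℕ} (p : ℝ) (M : Finset (Fin n)) :
    ES n p (fun S => if M ⊆ S then 1 else 0) = p ^ M.card := by
  have h := ES_pow p 0 M
  rw [mul_zero, add_zero] at h
  rw [← h]
  congr 1
  ext S
  by_cases hS : M ⊆ S
  · rw [if_pos hS, Finset.sdiff_eq_empty_iff_subset.2 hS]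
    simp
  · rw [if_neg hS, zero_pow]
    intro h0
    exact hS (Finset.sdiff_eq_empty_iff_subset.1 (Finset.card_eq_zero.1 h0))

theorem ES_const (n : ℕ) (p c : ℝ) : ES n p (fun _ => c) = c := by
  have h := ES_subset p (∅ : Finset (Fin n))
  simp only [Finset.empty_subset, if_true, Finset.card_empty, pow_zero] at h
  have h2 := ES_mul n p c (fun _ => 1)
  simp only [mul_one] at h2
  rw [h2, h, mul_one]

/-- The mean under the planted distribution as a linear map. -/
noncomputable def LP (n : ℕ) (p : ℝ) : ((Finset (Fin n) × (Edge n → Bool)) → ℝ) →ₗ[ℝ] ℝ where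
  toFun F := EP n p fun S Y => F (S, Y)
  map_add' F G := by
    simp only [EP_eq, Pi.add_apply, EQ_add, ES_add]
  map_smul' c F := by
    simp only [EP_eq, Pi.smul_apply, smul_eq_mul, EQ_mul, ES_mul, RingHom.id_apply]

theorem EP_const (n : ℕ) (p c : ℝ) : EP n p (fun _ _ => c) = c := by
  simp only [EP_eq, EQ_const, ES_const]

theorem EP_mono {n : ℕ} {p : ℝ} (h0 : 0 ≤ p) (h1 : p ≤ 1)
    {F G : Finset (Fin n) → (Edge n → Bool) → ℝ}
    (h : ∀ S Y, F S (plant S Y) ≤ G S (plant S Y)) : EP n p F ≤ EP n p G :=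
  ES_mono h0 h1 fun S => EQ_mono fun Y => h S Y

theorem EP_add (n : ℕ) (p : ℝ) (F G : Finset (Fin n) → (Edge n → Bool) → ℝ) :
    EP n p (fun S Y => F S Y + G S Y) = EP n p F + EP n p G := by
  simp only [EP_eq, EQ_add, ES_add]

theorem EP_mul (n : ℕ) (p c : ℝ) (F : Finset (Fin n) → (Edge n → Bool) → ℝ) :
    EP n p (fun S Y => c * F S Y) = c * EP n p F := by
  simp only [EP_eq, EQ_mul, ES_mul]

/-- The second moment about any point is at least the variance plus the square of the distance of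
the mean to this point. -/
theorem second_moment {Ω : Type*} (E : (Ω → ℝ) →ₗ[ℝ] ℝ) (h1 : E (fun _ => 1) = 1) (X : Ω → ℝ)
    (c : ℝ) : E (fun ω => (X ω - c) ^ 2) = E (fun ω => (X ω - E X) ^ 2) + (E X - c) ^ 2 := by
  have key : ∀ d : ℝ, E (fun ω => (X ω - d) ^ 2) = E (fun ω => X ω ^ 2) - 2 * d * E X + d ^ 2 := by
    intro d
    have : (fun ω => (X ω - d) ^ 2) = (fun ω => X ω ^ 2) - (2 * d) • X + (d ^ 2) • (fun _ => 1) := by
      ext ω
      simp only [Pi.add_apply, Pi.sub_apply, Pi.smul_apply, smul_eq_mul]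
      ring
    rw [this, map_add, map_sub, map_smul, map_smul, h1]
    simp only [smul_eq_mul]
    ring
  rw [key, key]
  ring

end Pool.Agent.T2H49.PC
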