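import Pool.Agent.T2H49.PC.Exp

/-!
# Pairs of cliques, and the expansion of symmetric sums
-/

namespace Pool.Agent.T2H49.PC

open Finset

/-- The number of edges of the union of two cliques that are not inside `S`. -/
theorem card_edges {n h : ℕ} {A B : Finset (Fin n)} (S : Finset (Fin n)) [DecidableEq (Edge n)]
    (hA : 2 * h + 1 ≤ A.card) (hB : 2 * h + 1 ≤ B.card) :
    h * ((A ∪ B) \ S).card ≤ ((EE A ∪ EE B) \ EE S).card := by
  classical
  set O := (A ∪ B) \ S with hO
  set N : Fin n → Finset (Fin n) := fun v => if v ∈ A then A.erase v else B.erase v with hN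
  have hNc : ∀ v ∈ O, 2 * h ≤ (N v).card := by
    intro v hv
    simp only [hN]
    by_cases hvA : v ∈ A
    · rw [if_pos hvA, Finset.card_erase_of_mem hvA]
      omega
    · have hvB : v ∈ B := by
        have := Finset.mem_union.1 (Finset.mem_sdiff.1 hv).1
        tauto
      rw [if_neg hvA, Finset.card_erase_of_mem hvB]
      omega
  set P : Finset (Σ _ : Fin n, Fin n) := O.sigma N with hP
  set φ : (Σ _ : Fin n, Fin n) → Sym2 (Fin n) := fun x => s(x.1, x.2) with hφ
  have h1 : O.card * (2 * h) ≤ P.card := by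
    rw [hP, Finset.card_sigma, ← smul_eq_mul]
    exact Finset.card_nsmul_le_sum _ _ _ hNc
  have h2 : P.card ≤ 2 * (P.image φ).card := by
    refine Finset.card_le_mul_card_image P 2 fun e _ => ?_
    induction e using Sym2.ind with
    | _ a b =>
      refine (Finset.card_le_card (t := {⟨a, b⟩, ⟨b, a⟩}) ?_).trans Finset.card_le_two
      intro x hx
      have hx2 := (Finset.mem_filter.1 hx).2
      simp only [hφ, Sym2.eq_iff] at hx2
      rcases x with ⟨x1, x2⟩
      simp only [Finset.mem_insert, Finset.mem_singleton]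
      rcases hx2 with ⟨h3, h4⟩ | ⟨h3, h4⟩
      · left; simp only at h3 h4; rw [h3, h4]
      · right; simp only at h3 h4; rw [h3, h4]
  have h3 : P.image φ ⊆ ((EE A ∪ EE B) \ EE S).image Subtype.val := by
    intro e he
    obtain ⟨⟨v, w⟩, hx, rfl⟩ := Finset.mem_image.1 he
    have hv := (Finset.mem_sigma.1 hx).1
    have hw := (Finset.mem_sigma.1 hx).2
    simp only [hN] at hw
    have hne : v ≠ w := by
      intro hvw
      subst hvw
      split_ifs at hw <;> simp at hw
    refine Finset.mem_image.2 ⟨⟨s(v, w), by simpa using hne⟩, ?_, rfl⟩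
    rw [Finset.mem_sdiff, Finset.mem_union]
    constructor
    · by_cases hvA : v ∈ A
      · left
        rw [if_pos hvA] at hw
        refine mem_EE.2 fun u hu => ?_
        rcases Sym2.mem_iff.1 hu with rfl | rfl
        · exact hvA
        · exact Finset.mem_of_mem_erase hw
      · right
        have hvB : v ∈ B := by
          have := Finset.mem_union.1 (Finset.mem_sdiff.1 hv).1
          tauto
        rw [if_neg hvA] at hw
        refine mem_EE.2 fun u hu => ?_
        rcases Sym2.mem_iff.1 hu with rfl | rfl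
        · exact hvB
        · exact Finset.mem_of_mem_erase hw
    · intro h4
      exact (Finset.mem_sdiff.1 hv).2 (mem_EE.1 h4 v (Sym2.mem_mk_left v w))
  have h4 : (P.image φ).card ≤ ((EE A ∪ EE B) \ EE S).card :=
    (Finset.card_le_card h3).trans Finset.card_image_le
  nlinarith

/-- The mean of the product of the fluctuations of two clique indicators. -/
theorem EP_pair {n h : ℕ} {p : ℝ} (h0 : 0 ≤ p) (h1 : p ≤ 1) {A B : Finset (Fin n)}
    (hA : 2 * h + 1 ≤ A.card) (hB : 2 * h + 1 ≤ B.card) :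
    0 ≤ EP n p (fun S Y => (ind (EE A) Y - if A ⊆ S then 1 else 0) *
      (ind (EE B) Y - if B ⊆ S then 1 else 0)) ∧
    EP n p (fun S Y => (ind (EE A) Y - if A ⊆ S then 1 else 0) *
      (ind (EE B) Y - if B ⊆ S then 1 else 0)) ≤
      (p + (1 - p) * (1 / 2) ^ h) ^ (A ∪ B).card - p ^ (A ∪ B).card := by
  classical
  have hone : ∀ (A S : Finset (Fin n)) (Y : Edge n → Bool), A ⊆ S →
      ind (EE A) (plant S Y) = 1 := by
    intro A S Y hAS
    rw [ind_plant, Finset.sdiff_eq_empty_iff_subset.2 (EE_mono hAS)]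
    simp [ind]
  have key : ∀ S : Finset (Fin n), EQ n (fun Y =>
      (ind (EE A) (plant S Y) - if A ⊆ S then 1 else 0) *
      (ind (EE B) (plant S Y) - if B ⊆ S then 1 else 0)) =
      if A ⊆ S ∨ B ⊆ S then 0 else (1 / 2) ^ ((EE A ∪ EE B) \ EE S).card := by
    intro S
    by_cases hAS : A ⊆ S
    · have : (fun Y => (ind (EE A) (plant S Y) - if A ⊆ S then 1 else 0) *
          (ind (EE B) (plant S Y) - if B ⊆ S then 1 else 0)) = fun _ => (0 : ℝ) := by
        ext Y
        rw [hone A S Y hAS, if_pos hAS]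
        ring
      rw [this, EQ_const, if_pos (Or.inl hAS)]
    · by_cases hBS : B ⊆ S
      · have : (fun Y => (ind (EE A) (plant S Y) - if A ⊆ S then 1 else 0) *
            (ind (EE B) (plant S Y) - if B ⊆ S then 1 else 0)) = fun _ => (0 : ℝ) := by
          ext Y
          rw [hone B S Y hBS, if_pos hBS]
          ring
        rw [this, EQ_const, if_pos (Or.inr hBS)]
      · have hor : ¬ (A ⊆ S ∨ B ⊆ S) := by tauto
        rw [if_neg hor]
        have : (fun Y => (ind (EE A) (plant S Y) - if A ⊆ S then 1 else 0) *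
            (ind (EE B) (plant S Y) - if B ⊆ S then 1 else 0)) =
            ind ((EE A ∪ EE B) \ EE S) := by
          ext Y
          rw [if_neg hAS, if_neg hBS, sub_zero, sub_zero, ind_mul, ind_plant]
        rw [this, EQ_ind]
  have hlow : ∀ S : Finset (Fin n), (0 : ℝ) ≤
      if A ⊆ S ∨ B ⊆ S then 0 else (1 / 2) ^ ((EE A ∪ EE B) \ EE S).card := by
    intro S
    split_ifs
    · exact le_rfl
    · positivity
  have hup : ∀ S : Finset (Fin n),
      (if A ⊆ S ∨ B ⊆ S then (0 : ℝ) else (1 / 2) ^ ((EE A ∪ EE B) \ EE S).card) ≤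
      ((1 / 2) ^ h) ^ ((A ∪ B) \ S).card + (-1) * if A ∪ B ⊆ S then 1 else 0 := by
    intro S
    by_cases hM : A ∪ B ⊆ S
    · rw [if_pos (Or.inl (Finset.union_subset_left hM)), if_pos hM,
        Finset.sdiff_eq_empty_iff_subset.2 hM]
      simp
    · rw [if_neg hM, mul_zero, add_zero]
      split_ifs
      · positivity
      · rw [← pow_mul]
        exact pow_le_pow_of_le_one (by norm_num) (by norm_num) (card_edges S hA hB)
  rw [EP_eq]
  simp only [key]
  constructor
  · have := ES_mono h0 h1 hlow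
    rwa [ES_const] at this
  · refine (ES_mono h0 h1 hup).trans (le_of_eq ?_)
    rw [ES_add, ES_mul, ES_pow, ES_subset]
    ring

/-- The second moment of the remainder. -/
theorem EP_rem {n h : ℕ} {p η : ℝ} (h0 : 0 ≤ p) (h1 : p ≤ 1) {ι : Type*} (s : Finset ι)
    (w : ι → ℝ) (A : ι → Finset (Fin n)) (hA : ∀ i ∈ s, w i ≠ 0 → 2 * h + 1 ≤ (A i).card)
    (hη : ∀ i ∈ s, ∀ j ∈ s, w i ≠ 0 → w j ≠ 0 →
      (p + (1 - p) * (1 / 2) ^ h) ^ (A i ∪ A j).card - p ^ (A i ∪ A j).card ≤
        η * p ^ (A i ∪ A j).card) :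
    EP n p (fun S Y => (∑ i ∈ s, w i * (ind (EE (A i)) Y - if A i ⊆ S then 1 else 0)) ^ 2) ≤
      η * ∑ i ∈ s, ∑ j ∈ s, |w i| * |w j| * p ^ (A i ∪ A j).card := by
  have h2 : EP n p (fun S Y =>
      (∑ i ∈ s, w i * (ind (EE (A i)) Y - if A i ⊆ S then 1 else 0)) ^ 2) =
      ∑ i ∈ s, ∑ j ∈ s, w i * w j * EP n p (fun S Y =>
        (ind (EE (A i)) Y - if A i ⊆ S then 1 else 0) *
        (ind (EE (A j)) Y - if A j ⊆ S then 1 else 0)) := by
    simp only [EP_eq]
    simp only [← ES_mul, ← EQ_mul, ← ES_sum, ← EQ_sum]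
    congr 1
    ext S
    congr 1
    ext Y
    rw [sq, Finset.sum_mul_sum]
    refine Finset.sum_congr rfl fun i _ => Finset.sum_congr rfl fun j _ => by ring
  rw [h2, Finset.mul_sum]
  refine Finset.sum_le_sum fun i hi => ?_
  rw [Finset.mul_sum]
  refine Finset.sum_le_sum fun j hj => ?_
  by_cases hwi : w i = 0
  · simp [hwi]
  by_cases hwj : w j = 0
  · simp [hwj]
  obtain ⟨k1, k2⟩ := EP_pair h0 h1 (hA i hi hwi) (hA j hj hwj)
  have k3 := k2.trans (hη i hi j hj hwi hwj)
  calc w i * w j * EP n p (fun S Y =>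
        (ind (EE (A i)) Y - if A i ⊆ S then 1 else 0) *
        (ind (EE (A j)) Y - if A j ⊆ S then 1 else 0))
      ≤ |w i| * |w j| * EP n p (fun S Y =>
        (ind (EE (A i)) Y - if A i ⊆ S then 1 else 0) *
        (ind (EE (A j)) Y - if A j ⊆ S then 1 else 0)) := by
        rw [← abs_mul]
        exact mul_le_mul_of_nonneg_right (le_abs_self _) k1
    _ ≤ |w i| * |w j| * (η * p ^ (A i ∪ A j).card) :=
        mul_le_mul_of_nonneg_left k3 (by positivity)
    _ = η * (|w i| * |w j| * p ^ (A i ∪ A j).card) := by ring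

/-- The second moment of the main part. -/
theorem ES_main {n : ℕ} {p : ℝ} {ι : Type*} (s : Finset ι) (w : ι → ℝ)
    (A : ι → Finset (Fin n)) :
    ES n p (fun S => (∑ i ∈ s, w i * if A i ⊆ S then 1 else 0) ^ 2) =
      ∑ i ∈ s, ∑ j ∈ s, w i * w j * p ^ (A i ∪ A j).card := by
  simp only [← ES_subset, ← ES_mul, ← ES_sum]
  congr 1
  ext S
  rw [sq, Finset.sum_mul_sum]
  refine Finset.sum_congr rfl fun i _ => Finset.sum_congr rfl fun j _ => ?_
  by_cases hi : A i ⊆ S <;> by_cases hj : A j ⊆ S <;> simp [hi, hj, Finset.union_subset_iff]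

/-- The second moment of a nonnegative combination under the null distribution. -/
theorem EQ_sq {n h : ℕ} {p : ℝ} (h0 : 0 < p) (hp : (1 / 2) ^ h ≤ p) {ι : Type*} (s : Finset ι)
    (w : ι → ℝ) (hw : ∀ i ∈ s, 0 ≤ w i) (A : ι → Finset (Fin n))
    (hA : ∀ i ∈ s, w i ≠ 0 → 2 * h + 1 ≤ (A i).card) :
    EQ n (fun Y => (∑ i ∈ s, w i * ind (EE (A i)) Y) ^ 2) ≤
      (1 / 2) ^ h / p * ∑ i ∈ s, ∑ j ∈ s, w i * w j * p ^ (A i ∪ A j).card := by
  classical
  have h2 : EQ n (fun Y => (∑ i ∈ s, w i * ind (EE (A i)) Y) ^ 2) =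
      ∑ i ∈ s, ∑ j ∈ s, w i * w j * (1 / 2) ^ (EE (A i) ∪ EE (A j)).card := by
    simp only [← EQ_ind, ← EQ_mul, ← EQ_sum]
    congr 1
    ext Y
    rw [sq, Finset.sum_mul_sum]
    refine Finset.sum_congr rfl fun i _ => Finset.sum_congr rfl fun j _ => ?_
    rw [← ind_mul]
    ring
  rw [h2, Finset.mul_sum]
  refine Finset.sum_le_sum fun i hi => ?_
  rw [Finset.mul_sum]
  refine Finset.sum_le_sum fun j hj => ?_
  by_cases hwi : w i = 0
  · simp [hwi]
  by_cases hwj : w j = 0
  · simp [hwj]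
  have k1 := card_edges ∅ (hA i hi hwi) (hA j hj hwj)
  have k2 : EE (∅ : Finset (Fin n)) = ∅ := by
    ext e
    simp only [mem_EE, Finset.notMem_empty, iff_false, not_forall]
    exact ⟨e.1.out.1, Sym2.out_fst_mem _, fun h => h⟩
  rw [k2, Finset.sdiff_empty, Finset.sdiff_empty] at k1
  have k3 : (1 / 2 : ℝ) ^ (EE (A i) ∪ EE (A j)).card ≤
      (1 / 2) ^ h / p * p ^ (A i ∪ A j).card := by
    refine (pow_le_pow_of_le_one (by norm_num) (by norm_num) k1).trans ?_
    have hM : 1 ≤ (A i ∪ A j).card := by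
      have := Finset.card_le_card (Finset.subset_union_left : A i ⊆ A i ∪ A j)
      have := hA i hi hwi
      omega
    obtain ⟨m, hm⟩ := Nat.exists_eq_add_of_le' hM
    rw [hm, pow_mul, pow_succ, pow_succ, div_mul_eq_mul_div, le_div_iff₀ h0]
    have : ((1 / 2 : ℝ) ^ h) ^ m ≤ p ^ m := pow_le_pow_left₀ (by positivity) hp m
    calc ((1 / 2 : ℝ) ^ h) ^ m * (1 / 2) ^ h * p ≤ p ^ m * (1 / 2) ^ h * p := by gcongr
      _ = (1 / 2) ^ h * (p ^ m * p) := by ring
  calc w i * w j * (1 / 2) ^ (EE (A i) ∪ EE (A j)).card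
      ≤ w i * w j * ((1 / 2) ^ h / p * p ^ (A i ∪ A j).card) :=
        mul_le_mul_of_nonneg_left k3 (mul_nonneg (hw i hi) (hw j hj))
    _ = (1 / 2) ^ h / p * (w i * w j * p ^ (A i ∪ A j).card) := by ring

end Pool.Agent.T2H49.PC
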