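import Pool.Agent.T2H49.PC.Pairs

/-!
# The Krawtchouk expansion of symmetric sums
-/

namespace Pool.Agent.T2H49.PC

open Finset

/-- The coefficient of level `l`. -/
noncomputable def lev (N : ℕ) (a : ℕ → ℝ) (l : ℕ) : ℝ :=
  ∑ j ∈ range (N + 1), a j * (j.choose l : ℝ)

/-- The sum over the supersets of `L` in `W`. -/
theorem sum_super {V : Type*} [DecidableEq V] (W L : Finset V) (hL : L ⊆ W) (a : ℕ → ℝ) :
    ∑ A ∈ W.powerset, (if L ⊆ A then a A.card / (W.card.choose A.card : ℝ) else 0) =
      lev W.card a L.card / (W.card.choose L.card : ℝ) := by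
  have h1 : ∑ A ∈ W.powerset, (if L ⊆ A then a A.card / (W.card.choose A.card : ℝ) else 0) =
      ∑ t ∈ (W \ L).powerset, a (L.card + t.card) / (W.card.choose (L.card + t.card) : ℝ) := by
    rw [← Finset.sum_filter]
    refine Finset.sum_bij' (fun A _ => A \ L) (fun t _ => L ∪ t) ?_ ?_ ?_ ?_ ?_
    · intro A hA
      have := Finset.mem_powerset.1 (Finset.mem_filter.1 hA).1
      exact Finset.mem_powerset.2 (Finset.sdiff_subset_sdiff this le_rfl)
    · intro t ht
      have := Finset.mem_powerset.1 ht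
      refine Finset.mem_filter.2 ⟨Finset.mem_powerset.2 (Finset.union_subset hL
        (this.trans Finset.sdiff_subset)), Finset.subset_union_left⟩
    · intro A hA
      exact Finset.union_sdiff_of_subset (Finset.mem_filter.1 hA).2
    · intro t ht
      have := Finset.mem_powerset.1 ht
      ext x
      simp only [Finset.mem_sdiff, Finset.mem_union]
      constructor
      · rintro ⟨h1 | h1, h2⟩
        · exact absurd h1 h2
        · exact h1
      · intro h1
        exact ⟨Or.inr h1, (Finset.mem_sdiff.1 (this h1)).2⟩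
    · intro A hA
      have h2 := (Finset.mem_filter.1 hA).2
      have h3 : L.card + (A \ L).card = A.card := by
        rw [add_comm]
        exact Finset.card_sdiff_add_card_eq_card h2
      rw [h3]
  rw [h1]
  have hc := Finset.card_le_card hL
  rw [Finset.sum_powerset_apply_card (fun t => a (L.card + t) /
    (W.card.choose (L.card + t) : ℝ)), Finset.card_sdiff_of_subset hL]
  have h2 : lev W.card a L.card =
      ∑ m ∈ range (W.card - L.card + 1), a (L.card + m) * ((L.card + m).choose L.card : ℝ) := by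
    unfold lev
    have h3 : W.card + 1 = L.card + (W.card - L.card + 1) := by omega
    rw [h3, Finset.sum_range_add]
    have h4 : ∑ x ∈ range L.card, a x * (x.choose L.card : ℝ) = 0 := by
      refine Finset.sum_eq_zero fun x hx => ?_
      rw [Nat.choose_eq_zero_of_lt (Finset.mem_range.1 hx)]
      simp
    rw [h4, zero_add]
  rw [h2, Finset.sum_div]
  refine Finset.sum_congr rfl fun m hm => ?_
  have hm' : L.card + m ≤ W.card := by
    have := Finset.mem_range.1 hm
    omega
  have h5 := Nat.choose_mul (n := W.card) (Nat.le_add_right L.card m)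
  rw [Nat.add_sub_cancel_left] at h5
  have h6 : ((W.card.choose (L.card + m) : ℕ) : ℝ) * ((L.card + m).choose L.card : ℕ) =
      (W.card.choose L.card : ℕ) * ((W.card - L.card).choose m : ℕ) := by
    exact_mod_cast h5
  have h7 : (0 : ℝ) < (W.card.choose (L.card + m) : ℕ) := by
    exact_mod_cast Nat.choose_pos hm'
  have h8 : (0 : ℝ) < (W.card.choose L.card : ℕ) := by
    exact_mod_cast Nat.choose_pos hc
  rw [nsmul_eq_mul]
  field_simp
  linear_combination -a (L.card + m) * h6

/-- The weight of a set of the size `A.card` in the symmetric sum with coefficients `a`. -/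
noncomputable def wt (N : ℕ) (p : ℝ) (a : ℕ → ℝ) (m : ℕ) : ℝ :=
  a m / ((N.choose m : ℝ) * p ^ m)

/-- Parseval's formula. -/
theorem parseval {V : Type*} [DecidableEq V] (W : Finset V) {p : ℝ} (hp : 0 < p) (a : ℕ → ℝ) :
    ∑ A ∈ W.powerset, ∑ B ∈ W.powerset,
      wt W.card p a A.card * wt W.card p a B.card * p ^ (A ∪ B).card =
    ∑ l ∈ range (W.card + 1), ((1 - p) / p) ^ l * lev W.card a l ^ 2 /
      (W.card.choose l : ℝ) := by
  set ρ := (1 - p) / p with hρ
  have hρ1 : 1 + ρ = 1 / p := by
    rw [hρ]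
    field_simp
    ring
  set u : Finset V → ℝ := fun A => a A.card / (W.card.choose A.card : ℝ) with hu
  have h1 : ∀ A ∈ W.powerset, ∀ B ∈ W.powerset,
      wt W.card p a A.card * wt W.card p a B.card * p ^ (A ∪ B).card =
      ∑ L ∈ W.powerset, ρ ^ L.card * ((if L ⊆ A then u A else 0) * if L ⊆ B then u B else 0) := by
    intro A hA B hB
    have hA' := Finset.mem_powerset.1 hA
    have hB' := Finset.mem_powerset.1 hB
    have h2 : ∑ L ∈ W.powerset, ρ ^ L.card *
        ((if L ⊆ A then u A else 0) * if L ⊆ B then u B else 0) =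
        u A * u B * ∑ L ∈ (A ∩ B).powerset, ρ ^ L.card := by
      rw [Finset.mul_sum]
      symm
      refine Finset.sum_subset_zero_on_sdiff (Finset.powerset_mono.2
        (Finset.inter_subset_left.trans hA')) ?_ ?_
      · intro L hL
        have h3 : ¬ L ⊆ A ∩ B := fun h => (Finset.mem_sdiff.1 hL).2 (Finset.mem_powerset.2 h)
        rw [Finset.subset_inter_iff] at h3
        by_cases h4 : L ⊆ A
        · have h5 : ¬ L ⊆ B := fun h => h3 ⟨h4, h⟩
          rw [if_neg h5]
          ring
        · rw [if_neg h4]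
          ring
      · intro L hL
        have h3 := Finset.subset_inter_iff.1 (Finset.mem_powerset.1 hL)
        rw [if_pos h3.1, if_pos h3.2]
        ring
    have h3 : ∑ L ∈ (A ∩ B).powerset, ρ ^ L.card = (1 / p) ^ (A ∩ B).card := by
      have := Finset.sum_pow_mul_eq_add_pow ρ 1 (A ∩ B)
      simp only [one_pow, mul_one] at this
      rw [this, add_comm, hρ1]
    rw [h2, h3]
    have h4 := Finset.card_union_add_card_inter A B
    have h5 : p ^ (A ∪ B).card * p ^ (A ∩ B).card = p ^ A.card * p ^ B.card := by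
      rw [← pow_add, ← pow_add, h4]
    have h6 : (0 : ℝ) < (W.card.choose A.card : ℕ) := by
      exact_mod_cast Nat.choose_pos (Finset.card_le_card hA')
    have h7 : (0 : ℝ) < (W.card.choose B.card : ℕ) := by
      exact_mod_cast Nat.choose_pos (Finset.card_le_card hB')
    simp only [wt, hu]
    rw [one_div, inv_pow]
    field_simp
    linear_combination (a A.card * a B.card) * h5
  have h8 : ∑ A ∈ W.powerset, ∑ B ∈ W.powerset,
      wt W.card p a A.card * wt W.card p a B.card * p ^ (A ∪ B).card =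
      ∑ L ∈ W.powerset, ρ ^ L.card * (∑ A ∈ W.powerset, if L ⊆ A then u A else 0) ^ 2 := by
    calc _ = ∑ A ∈ W.powerset, ∑ B ∈ W.powerset, ∑ L ∈ W.powerset,
          ρ ^ L.card * ((if L ⊆ A then u A else 0) * if L ⊆ B then u B else 0) :=
          Finset.sum_congr rfl fun A hA => Finset.sum_congr rfl fun B hB => h1 A hA B hB
      _ = ∑ A ∈ W.powerset, ∑ L ∈ W.powerset, ∑ B ∈ W.powerset,
          ρ ^ L.card * ((if L ⊆ A then u A else 0) * if L ⊆ B then u B else 0) :=
          Finset.sum_congr rfl fun A _ => Finset.sum_comm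
      _ = ∑ L ∈ W.powerset, ∑ A ∈ W.powerset, ∑ B ∈ W.powerset,
          ρ ^ L.card * ((if L ⊆ A then u A else 0) * if L ⊆ B then u B else 0) :=
          Finset.sum_comm
      _ = _ := by
          refine Finset.sum_congr rfl fun L _ => ?_
          rw [sq, Finset.sum_mul_sum, Finset.mul_sum]
          refine Finset.sum_congr rfl fun A _ => ?_
          rw [Finset.mul_sum]
  rw [h8]
  have h9 : ∀ L ∈ W.powerset, ρ ^ L.card *
      (∑ A ∈ W.powerset, if L ⊆ A then u A else 0) ^ 2 =
      ρ ^ L.card * (lev W.card a L.card / (W.card.choose L.card : ℝ)) ^ 2 := by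
    intro L hL
    have := sum_super W L (Finset.mem_powerset.1 hL) a
    simp only [hu]
    rw [this]
  rw [Finset.sum_congr rfl h9,
    Finset.sum_powerset_apply_card (fun l => ρ ^ l * (lev W.card a l /
      (W.card.choose l : ℝ)) ^ 2)]
  refine Finset.sum_congr rfl fun l hl => ?_
  have h10 : (0 : ℝ) < (W.card.choose l : ℕ) := by
    exact_mod_cast Nat.choose_pos (by have := Finset.mem_range.1 hl; omega)
  rw [nsmul_eq_mul]
  field_simp

theorem desc_le {m N : ℕ} (h : m ≤ N) (l : ℕ) :
    m.descFactorial l * N ^ l ≤ N.descFactorial l * m ^ l := by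
  induction l with
  | zero => simp
  | succ l ih =>
    rw [Nat.descFactorial_succ, Nat.descFactorial_succ, pow_succ, pow_succ]
    have h1 : (m - l) * N ≤ (N - l) * m := by
      rcases le_total m l with h2 | h2
      · rw [Nat.sub_eq_zero_of_le h2]
        simp
      · obtain ⟨c, rfl⟩ := Nat.exists_eq_add_of_le h2
        obtain ⟨d, rfl⟩ := Nat.exists_eq_add_of_le h
        have e1 : l + c - l = c := by omega
        have e2 : l + c + d - l = c + d := by omega
        rw [e1, e2]
        nlinarith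
    calc (m - l) * m.descFactorial l * (N ^ l * N)
        = ((m - l) * N) * (m.descFactorial l * N ^ l) := by ring
      _ ≤ ((N - l) * m) * (N.descFactorial l * m ^ l) := Nat.mul_le_mul h1 ih
      _ = (N - l) * N.descFactorial l * (m ^ l * m) := by ring

theorem choose_div_le {m N : ℕ} (h : m ≤ N) (hN : 0 < N) {l : ℕ} (hl : l ≤ N) :
    (m.choose l : ℝ) / (N.choose l : ℝ) ≤ ((m : ℝ) / N) ^ l := by
  have h1 : m.choose l * N ^ l ≤ N.choose l * m ^ l := by
    have h2 := desc_le h l
    rw [Nat.descFactorial_eq_factorial_mul_choose, Nat.descFactorial_eq_factorial_mul_choose,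
      mul_assoc, mul_assoc] at h2
    exact Nat.le_of_mul_le_mul_left h2 (Nat.factorial_pos l)
  have h3 : (0 : ℝ) < (N.choose l : ℕ) := by exact_mod_cast Nat.choose_pos hl
  have h4 : (0 : ℝ) < (N : ℝ) ^ l := by positivity
  rw [div_pow, div_le_div_iff₀ h3 h4]
  exact_mod_cast (by linarith [h1] : m.choose l * N ^ l ≤ m ^ l * N.choose l)

/-- The bound for the sum over the levels. -/
theorem lev_bound {m N l0 : ℕ} (h : m ≤ N) (hN : 0 < N) {ρ K : ℝ} (hρ : 0 ≤ ρ) (a : ℕ → ℝ)
    (ha : ∀ l, l0 ≤ l → |lev N a l| ≤ K * (m.choose l : ℝ)) (ha0 : ∀ l < l0, lev N a l = 0)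
    (hq : (m : ℝ) ^ 2 * ρ / N ≤ 1 / 2) :
    ∑ l ∈ range (N + 1), ρ ^ l * lev N a l ^ 2 / (N.choose l : ℝ) ≤
      2 * K ^ 2 * ((m : ℝ) ^ 2 * ρ / N) ^ l0 := by
  set q := (m : ℝ) ^ 2 * ρ / N with hqd
  have hq0 : 0 ≤ q := by positivity
  have h1 : ∀ l ∈ range (N + 1), ρ ^ l * lev N a l ^ 2 / (N.choose l : ℝ) ≤
      if l0 ≤ l then K ^ 2 * q ^ l else 0 := by
    intro l hl
    have hl' : l ≤ N := by have := Finset.mem_range.1 hl; omega
    have h3 : (0 : ℝ) < (N.choose l : ℕ) := by exact_mod_cast Nat.choose_pos hl'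
    by_cases h2 : l0 ≤ l
    · rw [if_pos h2]
      have h4 : lev N a l ^ 2 ≤ (K * (m.choose l : ℝ)) ^ 2 := by
        rw [← sq_abs]
        exact pow_le_pow_left₀ (abs_nonneg _) (ha l h2) 2
      have h5 := choose_div_le h hN hl'
      have h6 : (m.choose l : ℝ) ≤ (m : ℝ) ^ l := by exact_mod_cast Nat.choose_le_pow m l
      calc ρ ^ l * lev N a l ^ 2 / (N.choose l : ℝ)
          ≤ ρ ^ l * (K * (m.choose l : ℝ)) ^ 2 / (N.choose l : ℝ) := by gcongr
        _ = K ^ 2 * (ρ ^ l * ((m.choose l : ℝ) * ((m.choose l : ℝ) / (N.choose l : ℝ)))) := by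
            ring
        _ ≤ K ^ 2 * (ρ ^ l * ((m : ℝ) ^ l * ((m : ℝ) / N) ^ l)) := by gcongr
        _ = K ^ 2 * q ^ l := by
            rw [← mul_pow, ← mul_pow, hqd]
            congr 2
            ring
    · rw [if_neg h2, ha0 l (by omega)]
      simp
  refine (Finset.sum_le_sum h1).trans ?_
  rw [← Finset.sum_filter]
  have h7 : ∑ l ∈ (range (N + 1)).filter (fun l => l0 ≤ l), K ^ 2 * q ^ l ≤
      ∑ j ∈ range (N + 1), K ^ 2 * q ^ (l0 + j) := by
    have h8 : (range (N + 1)).filter (fun l => l0 ≤ l) ⊆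
        (range (N + 1)).image (fun j => l0 + j) := by
      intro l hl
      have := Finset.mem_filter.1 hl
      have h9 := Finset.mem_range.1 this.1
      exact Finset.mem_image.2 ⟨l - l0, Finset.mem_range.2 (by omega), by omega⟩
    calc _ ≤ ∑ l ∈ (range (N + 1)).image (fun j => l0 + j), K ^ 2 * q ^ l :=
          Finset.sum_le_sum_of_subset_of_nonneg h8 fun _ _ _ => by positivity
      _ = _ := by
          rw [Finset.sum_image]
          intro x _ y _ hxy
          simpa using hxy
  refine h7.trans ?_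
  have h8 : ∑ j ∈ range (N + 1), q ^ j ≤ 2 := by
    have h9 := (summable_geometric_of_lt_one hq0 (by linarith : q < 1)).sum_le_tsum
      (range (N + 1)) (fun _ _ => by positivity)
    rw [tsum_geometric_of_lt_one hq0 (by linarith)] at h9
    refine h9.trans ?_
    rw [inv_le_comm₀ (by linarith) (by norm_num)]
    linarith
  calc ∑ j ∈ range (N + 1), K ^ 2 * q ^ (l0 + j)
      = K ^ 2 * q ^ l0 * ∑ j ∈ range (N + 1), q ^ j := by
        rw [Finset.mul_sum]
        exact Finset.sum_congr rfl fun j _ => by rw [pow_add]; ring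
    _ ≤ K ^ 2 * q ^ l0 * 2 := by gcongr
    _ = 2 * K ^ 2 * q ^ l0 := by ring

end Pool.Agent.T2H49.PC
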