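import Pool.Agent.T2H49.PC.Est

/-!
# The two polynomials, for a fixed number of vertices
-/

namespace Pool.Agent.T2H49.PC

open Finset

theorem lev_single {N i : ℕ} (hi : i ≤ N) (c : ℝ) (l : ℕ) :
    lev N (fun j => if j = i then c else 0) l = c * (i.choose l : ℝ) := by
  unfold lev
  rw [Finset.sum_eq_single i]
  · simp
  · intro j _ hj
    simp [hj]
  · intro h
    exact absurd (Finset.mem_range.2 (by omega)) h

theorem lev_add (N : ℕ) (a b : ℕ → ℝ) (l : ℕ) :
    lev N (fun j => a j + b j) l = lev N a l + lev N b l := by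
  simp only [lev, add_mul, Finset.sum_add_distrib]

/-- The coefficients of the estimator of the membership of a vertex. -/
noncomputable def c2 (h j : ℕ) : ℝ := if j = 2 * h then 2 else if j = 4 * h then -1 else 0

theorem c2_ne {h j : ℕ} (hj : c2 h j ≠ 0) : j = 2 * h ∨ j = 4 * h := by
  unfold c2 at hj
  split_ifs at hj with h1 h2
  · exact Or.inl h1
  · exact Or.inr h2
  · exact absurd rfl hj

theorem lev_c2 {N h : ℕ} (hh : 0 < h) (hN : 4 * h ≤ N) (l : ℕ) :
    lev N (fun j => c2 h j - if j = 0 then 1 else 0) l =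
      2 * ((2 * h).choose l : ℝ) - ((4 * h).choose l : ℝ) - ((0 : ℕ).choose l : ℝ) := by
  have h1 : (fun j => c2 h j - if j = 0 then 1 else 0) = fun j =>
      ((if j = 2 * h then (2 : ℝ) else 0) + (if j = 4 * h then (-1 : ℝ) else 0)) +
        (if j = 0 then (-1 : ℝ) else 0) := by
    ext j
    unfold c2
    have h2 : 2 * h ≠ 4 * h := by omega
    have h3 : 2 * h ≠ 0 := by omega
    have h4 : 4 * h ≠ 0 := by omega
    by_cases e1 : j = 2 * h
    · subst e1
      simp [h2, h3]
    · by_cases e2 : j = 4 * h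
      · subst e2
        simp [h4, e1]
      · by_cases e3 : j = 0
        · subst e3
          simp [hh.ne']
        · simp [e1, e2, e3]
  rw [h1, lev_add, lev_add, lev_single (by omega), lev_single hN, lev_single (Nat.zero_le _)]
  ring

theorem lev_abs_c2 {N h : ℕ} (hh : 0 < h) (hN : 4 * h ≤ N) (l : ℕ) :
    lev N (fun j => |c2 h j|) l =
      2 * ((2 * h).choose l : ℝ) + ((4 * h).choose l : ℝ) := by
  have h1 : (fun j => |c2 h j|) = fun j =>
      ((if j = 2 * h then (2 : ℝ) else 0) + (if j = 4 * h then (1 : ℝ) else 0)) := by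
    ext j
    unfold c2
    have h2 : 2 * h ≠ 4 * h := by omega
    by_cases e1 : j = 2 * h
    · subst e1
      simp [h2]
    · by_cases e2 : j = 4 * h
      · subst e2
        simp [e1]
      · simp [e1, e2]
  rw [h1, lev_add, lev_single (by omega), lev_single hN]
  ring

theorem choose_mono {a b l : ℕ} (h : a ≤ b) : (a.choose l : ℝ) ≤ (b.choose l : ℝ) := by
  exact_mod_cast Nat.choose_le_choose l h

/-- **The estimator of the membership of a vertex.** -/
theorem rooted {n h : ℕ} (hh : 0 < h) (hn : 4 * h + 1 ≤ n) (v : Fin n) {p : ℝ} (h0 : 0 < p)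
    (h1 : p ≤ 1) (hx : (8 * h + 2 : ℝ) * (1 / 2) ^ h / p ≤ 1)
    (hq : ((4 * h : ℕ) : ℝ) ^ 2 * ((1 - p) / p) / ((n - 1 : ℕ) : ℝ) ≤ 1 / 2) :
    EP n p (fun S Y => (val (est (univ.erase v) {v} p (c2 h)) Y -
        if {v} ⊆ S then 1 else 0) ^ 2) ≤
      p * (16 * (((4 * h : ℕ) : ℝ) ^ 2 * ((1 - p) / p) / ((n - 1 : ℕ) : ℝ)) ^ 2 +
        72 * ((8 * h + 2) * (1 / 2) ^ h / p)) := by
  have hρ : 0 ≤ (1 - p) / p := div_nonneg (by linarith) h0.le
  have hcard : (univ.erase v).card = n - 1 := by
    rw [Finset.card_erase_of_mem (Finset.mem_univ v), Finset.card_univ, Fintype.card_fin]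
  have k := error_est (h := h) (univ.erase v) {v} (by simp) (x := 8 * h + 2) h0 h1 (c2 h)
    (by
      intro m hm
      rw [Finset.card_singleton]
      rcases c2_ne hm with rfl | rfl <;> omega)
    (by
      intro m hm
      rw [Finset.card_singleton]
      have hh' : (0 : ℝ) < h := by exact_mod_cast hh
      rcases c2_ne hm with rfl | rfl <;> push_cast <;> linarith) hx
  rw [hcard, Finset.card_singleton, pow_one] at k
  have k1 := lev_bound (m := 4 * h) (N := n - 1) (l0 := 2) (by omega) (by omega) (K := 2) hρ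
    (fun j => c2 h j - if j = 0 then 1 else 0)
    (by
      intro l hl
      rw [lev_c2 hh (by omega)]
      have e1 : ((0 : ℕ).choose l : ℝ) = 0 := by
        rw [Nat.choose_eq_zero_of_lt (by omega)]
        simp
      have e2 := choose_mono (l := l) (by omega : 2 * h ≤ 4 * h)
      have e3 : (0 : ℝ) ≤ ((2 * h).choose l : ℝ) := by positivity
      rw [e1, abs_le]
      constructor <;> linarith)
    (by
      intro l hl
      rw [lev_c2 hh (by omega)]
      interval_cases l
      · simp
        norm_num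
      · simp
        ring) hq
  have k2 := lev_bound (m := 4 * h) (N := n - 1) (l0 := 0) (by omega) (by omega) (K := 3) hρ
    (fun j => |c2 h j|)
    (by
      intro l _
      rw [lev_abs_c2 hh (by omega)]
      have e2 := choose_mono (l := l) (by omega : 2 * h ≤ 4 * h)
      have e3 : (0 : ℝ) ≤ ((2 * h).choose l : ℝ) := by positivity
      have e4 : (0 : ℝ) ≤ ((4 * h).choose l : ℝ) := by positivity
      rw [abs_of_nonneg (by positivity)]
      linarith)
    (by intro l hl; omega) hq
  refine k.trans (mul_le_mul_of_nonneg_left ?_ h0.le)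
  rw [pow_zero] at k2
  have hX : 0 ≤ 2 * (2 * (8 * (h : ℝ) + 2) * (1 / 2) ^ h / p) := by positivity
  have k3 := mul_le_mul_of_nonneg_left k2 hX
  calc _ ≤ 2 * (2 * 2 ^ 2 * (((4 * h : ℕ) : ℝ) ^ 2 * ((1 - p) / p) / ((n - 1 : ℕ) : ℝ)) ^ 2) +
        2 * (2 * (8 * (h : ℝ) + 2) * (1 / 2) ^ h / p) * (2 * 3 ^ 2 * 1) := by
        linarith
    _ = _ := by ring

/-- The coefficients of the clique count. -/
noncomputable def c1 (h j : ℕ) : ℝ := if j = 2 * h + 1 then 1 else 0

theorem c1_ne {h j : ℕ} (hj : c1 h j ≠ 0) : j = 2 * h + 1 := by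
  unfold c1 at hj
  split_ifs at hj with h1
  · exact h1
  · exact absurd rfl hj

theorem c1_nonneg (h j : ℕ) : 0 ≤ c1 h j := by
  unfold c1
  split_ifs <;> norm_num

theorem lev_c1 {N h : ℕ} (hN : 2 * h + 1 ≤ N) (l : ℕ) :
    lev N (c1 h) l = ((2 * h + 1).choose l : ℝ) := by
  have := lev_single hN 1 l
  rw [one_mul] at this
  exact this

/-- **The clique count.** -/
theorem counts {n h : ℕ} (hn : 2 * h + 1 ≤ n) {p : ℝ} (h0 : 0 < p)
    (h1 : p ≤ 1) (hx : (4 * h + 2 : ℝ) * (1 / 2) ^ h / p ≤ 1)
    (hq : ((2 * h + 1 : ℕ) : ℝ) ^ 2 * ((1 - p) / p) / (n : ℝ) ≤ 1 / 2) :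
    EP n p (fun _ Y => (val (est univ ∅ p (c1 h)) Y - 1) ^ 2) ≤
      4 * (((2 * h + 1 : ℕ) : ℝ) ^ 2 * ((1 - p) / p) / (n : ℝ)) +
        8 * ((4 * h + 2) * (1 / 2) ^ h / p) ∧
    EQ n (fun Y => val (est univ ∅ p (c1 h)) Y ^ 2) ≤ 2 * ((1 / 2) ^ h / p) := by
  have hρ : 0 ≤ (1 - p) / p := div_nonneg (by linarith) h0.le
  have hcard : (univ : Finset (Fin n)).card = n := by
    rw [Finset.card_univ, Fintype.card_fin]
  have k2 := lev_bound (m := 2 * h + 1) (N := n) (l0 := 0) (by omega) (by omega) (K := 1) hρ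
    (c1 h)
    (by
      intro l _
      rw [lev_c1 (by omega), one_mul, abs_of_nonneg (by positivity)])
    (by intro l hl; omega) hq
  rw [pow_zero] at k2
  constructor
  · have k := error_est (h := h) (univ : Finset (Fin n)) ∅ (by simp) (x := 4 * h + 2) h0 h1 (c1 h)
      (by
        intro m hm
        rw [Finset.card_empty, c1_ne hm])
      (by
        intro m hm
        rw [Finset.card_empty, c1_ne hm]
        push_cast
        linarith) hx
    rw [hcard, Finset.card_empty, pow_zero, one_mul] at k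
    simp only [Finset.empty_subset, if_true] at k
    have k1 := lev_bound (m := 2 * h + 1) (N := n) (l0 := 1) (by omega) (by omega) (K := 1) hρ
      (fun j => c1 h j - if j = 0 then 1 else 0)
      (by
        intro l hl
        have e : (fun j => c1 h j - if j = 0 then 1 else 0) = fun j =>
            c1 h j + if j = 0 then (-1 : ℝ) else 0 := by
          ext j
          split_ifs <;> ring
        rw [e, lev_add, lev_c1 hn, lev_single (Nat.zero_le _),
          Nat.choose_eq_zero_of_lt (by omega : 0 < l)]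
        simp)
      (by
        intro l hl
        have e : (fun j => c1 h j - if j = 0 then 1 else 0) = fun j =>
            c1 h j + if j = 0 then (-1 : ℝ) else 0 := by
          ext j
          split_ifs <;> ring
        rw [e, lev_add, lev_c1 hn, lev_single (Nat.zero_le _)]
        interval_cases l
        simp) hq
    have eabs : (fun j => |c1 h j|) = c1 h := by
      ext j
      exact abs_of_nonneg (c1_nonneg h j)
    rw [eabs] at k
    refine k.trans ?_
    have hX : 0 ≤ 2 * (2 * (4 * (h : ℝ) + 2) * (1 / 2) ^ h / p) := by positivity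
    have k3 := mul_le_mul_of_nonneg_left k2 hX
    calc _ ≤ 2 * (2 * 1 ^ 2 * (((2 * h + 1 : ℕ) : ℝ) ^ 2 * ((1 - p) / p) / (n : ℝ)) ^ 1) +
          2 * (2 * (4 * (h : ℝ) + 2) * (1 / 2) ^ h / p) * (2 * 1 ^ 2 * 1) := by
          linarith
      _ = _ := by ring
  · have hp : (1 / 2 : ℝ) ^ h ≤ p := by
      rw [div_le_one h0] at hx
      refine le_trans ?_ hx
      have : (1 : ℝ) ≤ 4 * h + 2 := by
        have : (0 : ℝ) ≤ h := by positivity
        linarith
      exact le_mul_of_one_le_left (by positivity) this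
    have k := null_est (h := h) (univ : Finset (Fin n)) h0 hp (c1 h) (c1_nonneg h)
      (by intro m hm; rw [c1_ne hm])
    rw [hcard] at k
    refine k.trans ?_
    have hX : 0 ≤ (1 / 2 : ℝ) ^ h / p := by positivity
    have k3 := mul_le_mul_of_nonneg_left k2 hX
    linarith

end Pool.Agent.T2H49.PC
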